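import Pool.Agent.Helper24.T8.Defs

/-!
Manifolds glued along trees from double branched covers of the complements of the crossing balls
of alternating diagrams; the intervals of slopes are bounded by a calculus of positivity.
-/

set_option autoImplicit false

namespace Pool.Agent.Helper52.OT

open Pool.Agent.Helper42.Th Pool.Agent.Helper24.T8

/-- The darts `d` and `e` are joined by steps `rot` and `flip` in the set `W`. -/
def Join {E : Type} (Γ : CMap E) (W : Set E) (d e : E) : Prop :=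
  d ∈ W ∧ ∀ S ⊆ W, d ∈ S → (∀ c ∈ S, Γ.rot c ∈ S ∧ (Γ.flip c ∈ W → Γ.flip c ∈ S)) → e ∈ S

universe u

mutual

/-- `Fill s m a S`: the elements of the set `S` satisfy the relations of the fundamental group
of a manifold which fills a torus with the peripheral elements `m`, `a` and the slopes of which
are at least `0`, and larger than `0` if `s` holds. -/
inductive Fill {G : Type u} [Group G] : Bool → G → G → Set G → Prop
  /-- A solid torus of slope `c / d`. -/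
  | solid (s : Bool) (m a : G) (d c : ℕ) (hd : 0 < d) (hs : s = true → 0 < c)
      (h : m ^ d = a ^ c) : Fill s m a ∅
  /-- The double cover of the complement of the crossing balls of a diagram, all of which but
  the ball of `δ` are filled with positive slopes.  The slopes at `δ` are between `q / p` and
  `p' / q'`, and the words `m` and `a` are positive in this interval. -/
  | glue (s : Bool) (m a : G) {E : Type} [Finite E] (Γ : CMap E) (L : Lab G Γ) (δ : E)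
      (hl : ∀ i : ℕ, (Γ.rot ^ i) δ ≠ Γ.flip δ) (hb : ∀ i : ℕ, (Γ.dual.rot ^ i) δ ≠ Γ.flip δ)
      (P : Set E) (F : E → Set G) (hP : ∀ d, d ≠ δ → d ≠ Γ.flip δ → d ∈ P ∨ Γ.flip d ∈ P)
      (hF : ∀ d ∈ P, Fill true (L.M d) (L.D d) (F d)) (q p q' p' : ℕ) (hp : 0 < p)
      (hp' : 0 < p') (h₁ : Pos Γ L δ q p true 1) (h₂ : Pos Γ.dual (dual L) δ q' p' true 1)
      (P₁ Q₁ P₂ Q₂ : ℤ)
      (hP₁ : 0 < P₁ * q + Q₁ * p) (hQ₁ : 0 < P₁ * p' + Q₁ * q')
      (hP₂ : 0 < P₂ * q + Q₂ * p) (hQ₂ : 0 < P₂ * p' + Q₂ * q')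
      (hm : m = L.M δ ^ P₁ * (L.D δ)⁻¹ ^ Q₁) (ha : a = L.M δ ^ P₂ * (L.D δ)⁻¹ ^ Q₂) :
      Fill s m a (L.elts ∪ ⋃ d ∈ P, F d)

/-- `Pos Γ L δ q p t g`: if the slope of the ball of `δ` were negative and at least `-q / p`,
the element `g` would not move any point down on an interval where `D δ` moves all points up
(and it would move them up if `t` holds). -/
inductive Pos {G : Type u} [Group G] :
    {E : Type} → (Γ : CMap E) → Lab G Γ → E → ℕ → ℕ → Bool → G → Prop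
  | one {E : Type} (Γ : CMap E) (L : Lab G Γ) (δ : E) (q p : ℕ) : Pos Γ L δ q p false 1
  | weak {E : Type} (Γ : CMap E) (L : Lab G Γ) (δ : E) (q p : ℕ) (g : G)
      (h : Pos Γ L δ q p true g) : Pos Γ L δ q p false g
  | mul {E : Type} (Γ : CMap E) (L : Lab G Γ) (δ : E) (q p : ℕ) (t t' : Bool) (g g' : G)
      (h : Pos Γ L δ q p t g) (h' : Pos Γ L δ q p t' g') : Pos Γ L δ q p (t || t') (g * g')
  | conj {E : Type} (Γ : CMap E) (L : Lab G Γ) (δ : E) (q p : ℕ) (t : Bool) (g c : G)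
      (hc : c ∈ Subgroup.closure L.elts) (h : Pos Γ L δ q p t g) :
      Pos Γ L δ q p t (c * g * c⁻¹)
  | root {E : Type} (Γ : CMap E) (L : Lab G Γ) (δ : E) (q p : ℕ) (t : Bool) (g : G) (n : ℕ)
      (hg : g ∈ Subgroup.closure L.elts) (hn : 0 < n) (h : Pos Γ L δ q p t (g ^ n)) :
      Pos Γ L δ q p t g
  /-- The ball of `δ`. -/
  | start {E : Type} (Γ : CMap E) (L : Lab G Γ) (δ : E) (q p : ℕ) : Pos Γ L δ q p true (L.D δ)
  | neg {E : Type} (Γ : CMap E) (L : Lab G Γ) (δ : E) (q p : ℕ) : Pos Γ L δ q p true (L.M δ)⁻¹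
  | slope {E : Type} (Γ : CMap E) (L : Lab G Γ) (δ : E) (q p : ℕ) :
      Pos Γ L δ q p false (L.D δ ^ q * L.M δ ^ p)
  /-- The other balls are filled with positive slopes. -/
  | toM {E : Type} (Γ : CMap E) (L : Lab G Γ) (δ : E) (q p : ℕ) (t : Bool) (d : E) (h1 : d ≠ δ)
      (h2 : d ≠ Γ.flip δ) (h : Pos Γ L δ q p t (L.D d)) : Pos Γ L δ q p t (L.M d)
  | toD {E : Type} (Γ : CMap E) (L : Lab G Γ) (δ : E) (q p : ℕ) (t : Bool) (d : E) (h1 : d ≠ δ)
      (h2 : d ≠ Γ.flip δ) (h : Pos Γ L δ q p t (L.M d)) : Pos Γ L δ q p t (L.D d)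
  | fill {E : Type} (Γ : CMap E) (L : Lab G Γ) (δ : E) (q p : ℕ) (s t : Bool) (d : E)
      (i j k l : ℤ) (S : Set G)
      (hF : Fill s (L.M d ^ i * L.D d ^ j) (L.M d ^ k * L.D d ^ l) S)
      (h : Pos Γ L δ q p t (L.M d ^ k * L.D d ^ l)) :
      Pos Γ L δ q p (s && t) (L.M d ^ i * L.D d ^ j)
  /-- If `m` has the sign of `a` at every point, then `a` is between `1` and `m * a`. -/
  | up {E : Type} (Γ : CMap E) (L : Lab G Γ) (δ : E) (q p : ℕ) (t : Bool) (d : E)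
      (i j k l : ℤ) (S : Set G) (c : G)
      (hF : Fill false (L.M d ^ i * L.D d ^ j) (L.M d ^ k * L.D d ^ l) S)
      (h1 : Pos Γ L δ q p false c)
      (h2 : Pos Γ L δ q p t
        (((L.M d ^ i * L.D d ^ j) * (L.M d ^ k * L.D d ^ l))⁻¹ * c)) :
      Pos Γ L δ q p t ((L.M d ^ k * L.D d ^ l)⁻¹ * c)
  | down {E : Type} (Γ : CMap E) (L : Lab G Γ) (δ : E) (q p : ℕ) (t : Bool) (d : E)
      (i j k l : ℤ) (S : Set G) (c : G)
      (hF : Fill false (L.M d ^ i * L.D d ^ j) (L.M d ^ k * L.D d ^ l) S)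
      (h1 : Pos Γ L δ q p false c⁻¹)
      (h2 : Pos Γ L δ q p t
        (c⁻¹ * ((L.M d ^ i * L.D d ^ j) * (L.M d ^ k * L.D d ^ l)))) :
      Pos Γ L δ q p t (c⁻¹ * (L.M d ^ k * L.D d ^ l))
  /-- The maximum principle: `W` is a set of inner vertices, and `g` is below the neighbours of
  `W`. -/
  | minV {E : Type} (Γ : CMap E) (L : Lab G Γ) (δ : E) (q p : ℕ) (t : Bool) (d e : E) (g : G)
      (W : Set E) (hW : ∀ c, Γ.rot c ∈ W ↔ c ∈ W) (h1 : δ ∉ W) (h2 : Γ.flip δ ∉ W)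
      (h : ∀ c ∈ W, Γ.flip c ∉ W → Pos Γ L δ q p false (g⁻¹ * L.x (Γ.flip c)))
      (hd : Join Γ W d e) (ht : Pos Γ L δ q p t (g⁻¹ * L.x (Γ.flip e))) :
      Pos Γ L δ q p t (g⁻¹ * L.x d)
  | maxV {E : Type} (Γ : CMap E) (L : Lab G Γ) (δ : E) (q p : ℕ) (t : Bool) (d e : E) (g : G)
      (W : Set E) (hW : ∀ c, Γ.rot c ∈ W ↔ c ∈ W) (h1 : δ ∉ W) (h2 : Γ.flip δ ∉ W)
      (h : ∀ c ∈ W, Γ.flip c ∉ W → Pos Γ L δ q p false ((L.x (Γ.flip c))⁻¹ * g))
      (hd : Join Γ W d e) (ht : Pos Γ L δ q p t ((L.x (Γ.flip e))⁻¹ * g)) :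
      Pos Γ L δ q p t ((L.x d)⁻¹ * g)
  /-- The maximum principle for inner faces. -/
  | minF {E : Type} (Γ : CMap E) (L : Lab G Γ) (δ : E) (q p : ℕ) (t : Bool) (d e : E) (g : G)
      (W : Set E) (hW : ∀ c, Γ.dual.rot c ∈ W ↔ c ∈ W) (h1 : δ ∉ W) (h2 : Γ.flip δ ∉ W)
      (h : ∀ c ∈ W, Γ.flip c ∉ W → Pos Γ L δ q p false (g⁻¹ * L.y (Γ.flip c)))
      (hd : Join Γ.dual W d e) (ht : Pos Γ L δ q p t (g⁻¹ * L.y (Γ.flip e))) :
      Pos Γ L δ q p t (g⁻¹ * L.y d)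
  | maxF {E : Type} (Γ : CMap E) (L : Lab G Γ) (δ : E) (q p : ℕ) (t : Bool) (d e : E) (g : G)
      (W : Set E) (hW : ∀ c, Γ.dual.rot c ∈ W ↔ c ∈ W) (h1 : δ ∉ W) (h2 : Γ.flip δ ∉ W)
      (h : ∀ c ∈ W, Γ.flip c ∉ W → Pos Γ L δ q p false ((L.y (Γ.flip c))⁻¹ * g))
      (hd : Join Γ.dual W d e) (ht : Pos Γ L δ q p t ((L.y (Γ.flip e))⁻¹ * g)) :
      Pos Γ L δ q p t ((L.y d)⁻¹ * g)

end

end Pool.Agent.Helper52.OT
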