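import Pool.Agent.Helper52.OT.Words
import Pool.Agent.Helper52.OT.Defs
import Pool.Agent.Helper52.OC.Up

/-!
Soundness of the rules of positivity.
-/

set_option autoImplicit false

namespace Pool.Agent.Helper52.OT

open Pool.Agent.Helper42.Th Pool.Agent.Helper31.T3 Pool.Agent.Helper42.T3 Pool.Agent.Helper42.T4
open Pool.Agent.Helper31.OrderAct
open Pool.Agent.Helper71.Rot
open Pool.Agent.Helper71.Tree (FillSpec solid_spec)
open Pool.Agent.Helper24.T8 (dual HarmAt opHom comm_ab comm_pow)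
open Pool.Agent.Helper52.OC (up_of_fix le_im lt_im)

universe u

section act

variable {E : Type} {G : Type u} [Group G] (Γ : CMap E) (L : Lab G Γ) (δ : E) (q p : ℕ)

/-- What is known about the action on the set `U`. -/
structure Act {Ω : Type u} [CompleteLinearOrder Ω] (ρ : G →* (Ω ≃o Ω)) (U : Set Ω) : Prop where
  harm : ∀ z, Harm Γ δ (fun d => lx L ρ d z) (fun d => ly L ρ d z)
  inv : ∀ g ∈ Subgroup.closure L.elts, ∀ z ∈ U, ρ g z ∈ U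
  start : ∀ z ∈ U, z < ρ (L.D δ) z
  neg : ∀ z ∈ U, z < ρ (L.M δ)⁻¹ z
  slope : ∀ z ∈ U, z ≤ ρ (L.D δ ^ q * L.M δ ^ p) z

/-- The meaning of positivity. -/
def Mean (t : Bool) (g : G) : Prop :=
  g ∈ Subgroup.closure L.elts ∧ ∀ (Ω : Type u) [CompleteLinearOrder Ω] (ρ : G →* (Ω ≃o Ω))
    (U : Set Ω), Act Γ L δ q p ρ U → ∀ z ∈ U, z ≤ ρ g z ∧ (t = true → z < ρ g z)

variable {Γ L δ q p}

lemma mem_x (d : E) : L.x d ∈ Subgroup.closure L.elts :=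
  Subgroup.subset_closure (Or.inl ⟨d, rfl⟩)

lemma mem_y (d : E) : L.y d ∈ Subgroup.closure L.elts :=
  Subgroup.subset_closure (Or.inr ⟨d, rfl⟩)

lemma mem_D (d : E) : L.D d ∈ Subgroup.closure L.elts :=
  Subgroup.mul_mem _ (Subgroup.inv_mem _ (mem_x _)) (mem_x _)

lemma mem_M (d : E) : L.M d ∈ Subgroup.closure L.elts :=
  Subgroup.mul_mem _ (Subgroup.inv_mem _ (mem_y _)) (mem_y _)

/-- The minimum principle for sets of vertices. -/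
lemma low_set [Finite E] {Ω₁ Ω₂ : Type*} [LinearOrder Ω₁] [LinearOrder Ω₂] {f : E → Ω₁}
    {g : E → Ω₂} (h : Harm Γ δ f g) {W : Set E} (hW : ∀ c, Γ.rot c ∈ W ↔ c ∈ W) (h1 : δ ∉ W)
    (h2 : Γ.flip δ ∉ W) {w : Ω₁} (hw : ∀ c ∈ W, Γ.flip c ∉ W → w ≤ f (Γ.flip c)) {d e : E}
    (hd : Join Γ W d e) :
    w ≤ f d ∧ (w < f (Γ.flip e) → w < f d) := by
  obtain ⟨m, hm, hmin⟩ := Set.exists_min_image W f W.toFinite ⟨d, hd.1⟩
  rcases lt_or_ge w (f m) with h3 | h3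
  · have h4 := h3.trans_le (hmin d hd.1)
    exact ⟨h4.le, fun _ => h4⟩
  have hSW : ∀ c, c ∈ {c | c ∈ W ∧ f c = f m} ↔ (c ∈ W ∧ f c = f m) := fun c => Iff.rfl
  have hrot : ∀ c, Γ.rot c ∈ {c | c ∈ W ∧ f c = f m} ↔ c ∈ {c | c ∈ W ∧ f c = f m} := by
    intro c
    rw [hSW, hSW, hW, h.f_rot]
  have hsp : ∀ c ∈ {c | c ∈ W ∧ f c = f m}, f (Γ.flip c) = f c := by
    have h5 := h.op.spread {c | c ∈ W ∧ f c = f m} hrot (fun c hc => ⟨by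
      rintro rfl
      exact h1 hc.1, by
      rintro rfl
      exact h2 hc.1⟩) (fun c hc => by
      change f c ≤ f (Γ.flip c)
      by_cases h6 : Γ.flip c ∈ W
      · rw [hc.2]
        exact hmin _ h6
      · rw [hc.2]
        exact h3.trans (hw c hc.1 h6))
    exact h5
  have hex : ∃ c ∈ {c | c ∈ W ∧ f c = f m}, Γ.flip c ∉ W := by
    by_contra hn
    push Not at hn
    have h5 := Γ.conn {c | c ∈ W ∧ f c = f m} ⟨m, hm, rfl⟩ fun c hc =>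
      ⟨(hrot c).mpr hc, hn c hc, (hsp c hc).trans hc.2⟩
    have h6 : δ ∈ {c | c ∈ W ∧ f c = f m} := by
      rw [h5]
      trivial
    exact h1 h6.1
  obtain ⟨c, hc, hc'⟩ := hex
  have h4 : f m = w := by
    refine le_antisymm h3 ?_
    have h5 := hw c hc.1 hc'
    rwa [hsp c hc, hc.2] at h5
  refine ⟨h4 ▸ hmin d hd.1, fun h5 => ?_⟩
  refine lt_of_le_of_ne (h4 ▸ hmin d hd.1) fun h6 => ?_
  have h7 := hd.2 {c | c ∈ W ∧ f c = f m} (fun c hc => hc.1) ⟨hd.1, by rw [← h6, h4]⟩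
    (fun c hc => ⟨(hrot c).mpr hc, fun h8 => ⟨h8, (hsp c hc).trans hc.2⟩⟩)
  have h8 := hsp e h7
  rw [h7.2, h4] at h8
  exact absurd h5 (not_lt.mpr h8.le)

section rules

variable {t t' s : Bool} {g g' c : G}

lemma Mean.one : Mean Γ L δ q p false 1 := by
  refine ⟨Subgroup.one_mem _, fun Ω _ ρ U A z hz => ?_⟩
  rw [map_one]
  exact ⟨le_rfl, fun h => absurd h (by simp)⟩

lemma Mean.weak (h : Mean Γ L δ q p true g) : Mean Γ L δ q p false g :=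
  ⟨h.1, fun Ω _ ρ U A z hz => ⟨(h.2 Ω ρ U A z hz).1, fun h => absurd h (by simp)⟩⟩

lemma Mean.mul (h : Mean Γ L δ q p t g) (h' : Mean Γ L δ q p t' g') :
    Mean Γ L δ q p (t || t') (g * g') := by
  refine ⟨Subgroup.mul_mem _ h.1 h'.1, fun Ω _ ρ U A z hz => ?_⟩
  have h1 := h'.2 Ω ρ U A z hz
  have h2 := h.2 Ω ρ U A _ (A.inv g' h'.1 z hz)
  rw [map_mul, RelIso.mul_apply]
  refine ⟨h1.1.trans h2.1, fun h => ?_⟩
  rcases (Bool.or_eq_true _ _).mp h with h3 | h3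
  · exact h1.1.trans_lt (h2.2 h3)
  · exact (h1.2 h3).trans_le h2.1

lemma Mean.conj (hc : c ∈ Subgroup.closure L.elts) (h : Mean Γ L δ q p t g) :
    Mean Γ L δ q p t (c * g * c⁻¹) := by
  refine ⟨Subgroup.mul_mem _ (Subgroup.mul_mem _ hc h.1) (Subgroup.inv_mem _ hc),
    fun Ω _ ρ U A z hz => ?_⟩
  have h1 := h.2 Ω ρ U A _ (A.inv c⁻¹ (Subgroup.inv_mem _ hc) z hz)
  have h2 : ρ (c * g * c⁻¹) z = ρ c (ρ g (ρ c⁻¹ z)) := by
    rw [map_mul, map_mul]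
    rfl
  have h3 : ρ c (ρ c⁻¹ z) = z := by
    rw [map_inv, RelIso.apply_inv_self]
  rw [h2]
  constructor
  · have := (ρ c).monotone h1.1
    rwa [h3] at this
  · intro h
    have := (ρ c).strictMono (h1.2 h)
    rwa [h3] at this

lemma Mean.root {n : ℕ} (hg : g ∈ Subgroup.closure L.elts) (hn : 0 < n)
    (h : Mean Γ L δ q p t (g ^ n)) : Mean Γ L δ q p t g := by
  refine ⟨hg, fun Ω _ ρ U A z hz => ?_⟩
  have h1 := h.2 Ω ρ U A z hz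
  rw [map_pow] at h1
  refine ⟨of_pow_ge hn h1.1, fun h => ?_⟩
  by_contra hc
  push Not at hc
  exact absurd (h1.2 h) (not_lt.mpr (pow_le hc n))

lemma Mean.start : Mean Γ L δ q p true (L.D δ) :=
  ⟨mem_D δ, fun _ _ _ _ A z hz => ⟨(A.start z hz).le, fun _ => A.start z hz⟩⟩

lemma Mean.neg : Mean Γ L δ q p true (L.M δ)⁻¹ :=
  ⟨Subgroup.inv_mem _ (mem_M δ), fun _ _ _ _ A z hz => ⟨(A.neg z hz).le, fun _ => A.neg z hz⟩⟩

lemma Mean.slope : Mean Γ L δ q p false (L.D δ ^ q * L.M δ ^ p) :=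
  ⟨Subgroup.mul_mem _ (Subgroup.pow_mem _ (mem_D δ) _) (Subgroup.pow_mem _ (mem_M δ) _),
    fun _ _ _ _ A z hz => ⟨A.slope z hz, fun h => absurd h (by simp)⟩⟩

lemma Mean.toM {d : E} (h1 : d ≠ δ) (h2 : d ≠ Γ.flip δ) (h : Mean Γ L δ q p t (L.D d)) :
    Mean Γ L δ q p t (L.M d) := by
  refine ⟨mem_M d, fun Ω _ ρ U A z hz => ?_⟩
  obtain ⟨h3, h4⟩ := h.2 Ω ρ U A z hz
  have h5 := (up_M L ρ).mpr ((A.harm z).pos d h1 h2 ((up_D L ρ).mp h3))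
  refine ⟨h5, fun h => lt_of_le_of_ne h5 fun h6 => ?_⟩
  have h7 := (A.harm z).str d h1 h2 (le_antisymm ((up_M L ρ).mp h5) ((dn_M L ρ).mp h6.ge))
  exact absurd (h4 h) (not_lt.mpr ((dn_D L ρ).mpr h7.ge))

lemma Mean.toD {d : E} (h1 : d ≠ δ) (h2 : d ≠ Γ.flip δ) (h : Mean Γ L δ q p t (L.M d)) :
    Mean Γ L δ q p t (L.D d) := by
  refine ⟨mem_D d, fun Ω _ ρ U A z hz => ?_⟩
  obtain ⟨h3, h4⟩ := h.2 Ω ρ U A z hz
  obtain ⟨e1, e2⟩ := Harm.ne_flip (Γ := Γ) h1 h2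
  have key : ρ (L.D d) z ≤ z → ρ (L.M d) z ≤ z := by
    intro h5
    have h6 := (A.harm z).pos _ e1 e2
    rw [Γ.flip_flip] at h6
    exact (dn_M L ρ).mpr (h6 ((dn_D L ρ).mp h5))
  constructor
  · by_contra hn
    push Not at hn
    have h5 := key hn.le
    have h7 := (A.harm z).str d h1 h2 (le_antisymm ((up_M L ρ).mp h3) ((dn_M L ρ).mp h5))
    exact absurd hn (not_lt.mpr ((up_D L ρ).mpr h7.le))
  · intro h
    by_contra hn
    push Not at hn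
    exact absurd (h4 h) (not_lt.mpr (key hn))

lemma mem_word (d : E) (i j : ℤ) : L.M d ^ i * L.D d ^ j ∈ Subgroup.closure L.elts :=
  Subgroup.mul_mem _ (Subgroup.zpow_mem _ (mem_M d) _) (Subgroup.zpow_mem _ (mem_D d) _)

lemma comm_word {Ω : Type u} [CompleteLinearOrder Ω] (ρ : G →* (Ω ≃o Ω)) (d : E)
    (i j k l : ℤ) : ρ (L.M d ^ i * L.D d ^ j) * ρ (L.M d ^ k * L.D d ^ l) =
      ρ (L.M d ^ k * L.D d ^ l) * ρ (L.M d ^ i * L.D d ^ j) := by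
  have hc : Commute (L.M d) (L.D d) := comm_MD L d
  rw [← map_mul, ← map_mul]
  congr 1
  exact ((((Commute.refl (L.M d)).zpow_zpow i k).mul_right (hc.zpow_zpow i l)).mul_left
    ((hc.symm.zpow_zpow j k).mul_right ((Commute.refl (L.D d)).zpow_zpow j l))).eq

lemma Mean.fill {d : E} {i j k l : ℤ} {S : Set G}
    (hF : ∀ (Ω : Type u) [CompleteLinearOrder Ω] (ρ : G →* (Ω ≃o Ω)),
      FillSpec s (some 0) none (ρ (L.M d ^ i * L.D d ^ j)) (ρ (L.M d ^ k * L.D d ^ l)) (ρ '' S))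
    (h : Mean Γ L δ q p t (L.M d ^ k * L.D d ^ l)) :
    Mean Γ L δ q p (s && t) (L.M d ^ i * L.D d ^ j) := by
  refine ⟨mem_word d i j, fun Ω _ ρ U A z hz => ?_⟩
  obtain ⟨h3, h4⟩ := h.2 Ω ρ U A z hz
  have hcm := comm_word (L := L) ρ d i j k l
  have h5 := ((hF Ω ρ).bd hcm).lower 0 rfl
  rw [neg_zero, zpow_zero, one_mul] at h5
  have h6 := (h5.up z h3).1
  refine ⟨h6, fun h => lt_of_le_of_ne h6 fun h7 => ?_⟩
  obtain ⟨h8, h9⟩ := (Bool.and_eq_true _ _).mp h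
  have h10 := (hF Ω ρ).str hcm h8 0 rfl z (by
    rw [neg_zero, zpow_zero, one_mul]
    exact h7.symm)
  exact (h4 h9).ne h10.symm

lemma Mean.up {d : E} {i j k l : ℤ} {S : Set G}
    (hF : ∀ (Ω : Type u) [CompleteLinearOrder Ω] (ρ : G →* (Ω ≃o Ω)),
      FillSpec false (some 0) none (ρ (L.M d ^ i * L.D d ^ j)) (ρ (L.M d ^ k * L.D d ^ l))
        (ρ '' S))
    (h1 : Mean Γ L δ q p false c)
    (h2 : Mean Γ L δ q p t (((L.M d ^ i * L.D d ^ j) * (L.M d ^ k * L.D d ^ l))⁻¹ * c)) :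
    Mean Γ L δ q p t ((L.M d ^ k * L.D d ^ l)⁻¹ * c) := by
  refine ⟨Subgroup.mul_mem _ (Subgroup.inv_mem _ (mem_word d k l)) h1.1,
    fun Ω _ ρ U A z hz => ?_⟩
  have h3 := (h1.2 Ω ρ U A z hz).1
  obtain ⟨h4, h5⟩ := h2.2 Ω ρ U A z hz
  rw [le_im] at h4
  rw [lt_im] at h5
  rw [le_im, lt_im]
  rw [map_mul, RelIso.mul_apply] at h4 h5
  rcases lt_or_ge (ρ (L.M d ^ k * L.D d ^ l) z) z with h6 | h6
  · exact ⟨(h6.trans_le h3).le, fun _ => h6.trans_le h3⟩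
  · have h7 := (((hF Ω ρ).bd (comm_word ρ d i j k l)).lower 0 rfl)
    rw [neg_zero, zpow_zero, one_mul] at h7
    have h8 := (h7.up _ ((ρ (L.M d ^ k * L.D d ^ l)).monotone h6)).1
    exact ⟨h8.trans h4, fun h => h8.trans_lt (h5 h)⟩

lemma Mean.down {d : E} {i j k l : ℤ} {S : Set G}
    (hF : ∀ (Ω : Type u) [CompleteLinearOrder Ω] (ρ : G →* (Ω ≃o Ω)),
      FillSpec false (some 0) none (ρ (L.M d ^ i * L.D d ^ j)) (ρ (L.M d ^ k * L.D d ^ l))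
        (ρ '' S))
    (h1 : Mean Γ L δ q p false c⁻¹)
    (h2 : Mean Γ L δ q p t (c⁻¹ * ((L.M d ^ i * L.D d ^ j) * (L.M d ^ k * L.D d ^ l)))) :
    Mean Γ L δ q p t (c⁻¹ * (L.M d ^ k * L.D d ^ l)) := by
  refine ⟨Subgroup.mul_mem _ h1.1 (mem_word d k l), fun Ω _ ρ U A z hz => ?_⟩
  have hc : c ∈ Subgroup.closure L.elts := by
    have := Subgroup.inv_mem _ h1.1
    rwa [inv_inv] at this
  have h3 : ρ c z ≤ z := by
    have := (h1.2 Ω ρ U A _ (A.inv c hc z hz)).1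
    rwa [map_inv, RelIso.inv_apply_self] at this
  obtain ⟨h4, h5⟩ := h2.2 Ω ρ U A z hz
  rw [le_im] at h4
  rw [lt_im] at h5
  rw [le_im, lt_im]
  rw [map_mul, RelIso.mul_apply] at h4 h5
  rcases lt_or_ge z (ρ (L.M d ^ k * L.D d ^ l) z) with h6 | h6
  · exact ⟨(h3.trans_lt h6).le, fun _ => h3.trans_lt h6⟩
  · have h7 := (((hF Ω ρ).bd (comm_word ρ d i j k l)).lower 0 rfl)
    rw [neg_zero, zpow_zero, one_mul] at h7
    have h8 := (h7.dn _ ((ρ (L.M d ^ k * L.D d ^ l)).monotone h6)).1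
    exact ⟨h4.trans h8, fun h => (h5 h).trans_le h8⟩

variable [Finite E]

lemma Mean.minV {d e : E} {W : Set E} (hW : ∀ c, Γ.rot c ∈ W ↔ c ∈ W) (h1 : δ ∉ W)
    (h2 : Γ.flip δ ∉ W)
    (h : ∀ c ∈ W, Γ.flip c ∉ W → Mean Γ L δ q p false (g⁻¹ * L.x (Γ.flip c)))
    (hd : Join Γ W d e) (ht : Mean Γ L δ q p t (g⁻¹ * L.x (Γ.flip e))) :
    Mean Γ L δ q p t (g⁻¹ * L.x d) := by
  refine ⟨?_, fun Ω _ ρ U A z hz => ?_⟩
  · have h3 := Subgroup.mul_mem _ ht.1 (Subgroup.inv_mem _ (mem_x (L := L) (Γ.flip e)))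
    rw [mul_inv_cancel_right] at h3
    exact Subgroup.mul_mem _ h3 (mem_x d)
  · have h3 := low_set (A.harm z) (w := ρ g z) hW h1 h2
      (fun c hc hc' => (le_im ρ _ _ _).mp ((h c hc hc').2 Ω ρ U A z hz).1) hd
    exact ⟨(le_im ρ _ _ _).mpr h3.1, fun h => (lt_im ρ _ _ _).mpr
      (h3.2 ((lt_im ρ _ _ _).mp ((ht.2 Ω ρ U A z hz).2 h)))⟩

lemma Mean.maxV {d e : E} {W : Set E} (hW : ∀ c, Γ.rot c ∈ W ↔ c ∈ W) (h1 : δ ∉ W)
    (h2 : Γ.flip δ ∉ W)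
    (h : ∀ c ∈ W, Γ.flip c ∉ W → Mean Γ L δ q p false ((L.x (Γ.flip c))⁻¹ * g))
    (hd : Join Γ W d e) (ht : Mean Γ L δ q p t ((L.x (Γ.flip e))⁻¹ * g)) :
    Mean Γ L δ q p t ((L.x d)⁻¹ * g) := by
  refine ⟨?_, fun Ω _ ρ U A z hz => ?_⟩
  · have h3 := Subgroup.mul_mem _ (mem_x (L := L) (Γ.flip e)) ht.1
    rw [mul_inv_cancel_left] at h3
    exact Subgroup.mul_mem _ (Subgroup.inv_mem _ (mem_x d)) h3
  · have h3 := low_set (A.harm z).op (w := OrderDual.toDual (ρ g z)) hW h1 h2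
      (fun c hc hc' => (le_im ρ _ _ _).mp ((h c hc hc').2 Ω ρ U A z hz).1) hd
    exact ⟨(le_im ρ _ _ _).mpr h3.1, fun h => (lt_im ρ _ _ _).mpr
      (h3.2 ((lt_im ρ _ _ _).mp ((ht.2 Ω ρ U A z hz).2 h)))⟩

lemma Mean.minF {d e : E} {W : Set E} (hW : ∀ c, Γ.dual.rot c ∈ W ↔ c ∈ W) (h1 : δ ∉ W)
    (h2 : Γ.flip δ ∉ W)
    (h : ∀ c ∈ W, Γ.flip c ∉ W → Mean Γ L δ q p false (g⁻¹ * L.y (Γ.flip c)))
    (hd : Join Γ.dual W d e)
    (ht : Mean Γ L δ q p t (g⁻¹ * L.y (Γ.flip e))) :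
    Mean Γ L δ q p t (g⁻¹ * L.y d) := by
  refine ⟨?_, fun Ω _ ρ U A z hz => ?_⟩
  · have h3 := Subgroup.mul_mem _ ht.1 (Subgroup.inv_mem _ (mem_y (L := L) (Γ.flip e)))
    rw [mul_inv_cancel_right] at h3
    exact Subgroup.mul_mem _ h3 (mem_y d)
  · have h3 := low_set (A.harm z).dual (w := ρ g z) hW h1 h2
      (fun c hc hc' => (le_im ρ _ _ _).mp ((h c hc hc').2 Ω ρ U A z hz).1) hd
    exact ⟨(le_im ρ _ _ _).mpr h3.1, fun h => (lt_im ρ _ _ _).mpr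
      (h3.2 ((lt_im ρ _ _ _).mp ((ht.2 Ω ρ U A z hz).2 h)))⟩

lemma Mean.maxF {d e : E} {W : Set E} (hW : ∀ c, Γ.dual.rot c ∈ W ↔ c ∈ W) (h1 : δ ∉ W)
    (h2 : Γ.flip δ ∉ W)
    (h : ∀ c ∈ W, Γ.flip c ∉ W → Mean Γ L δ q p false ((L.y (Γ.flip c))⁻¹ * g))
    (hd : Join Γ.dual W d e)
    (ht : Mean Γ L δ q p t ((L.y (Γ.flip e))⁻¹ * g)) :
    Mean Γ L δ q p t ((L.y d)⁻¹ * g) := by
  refine ⟨?_, fun Ω _ ρ U A z hz => ?_⟩
  · have h3 := Subgroup.mul_mem _ (mem_y (L := L) (Γ.flip e)) ht.1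
    rw [mul_inv_cancel_left] at h3
    exact Subgroup.mul_mem _ (Subgroup.inv_mem _ (mem_y d)) h3
  · have h3 := low_set (A.harm z).dual.op (w := OrderDual.toDual (ρ g z)) hW h1 h2
      (fun c hc hc' => (le_im ρ _ _ _).mp ((h c hc hc').2 Ω ρ U A z hz).1) hd
    exact ⟨(le_im ρ _ _ _).mpr h3.1, fun h => (lt_im ρ _ _ _).mpr
      (h3.2 ((lt_im ρ _ _ _).mp ((ht.2 Ω ρ U A z hz).2 h)))⟩

end rules

end act

end Pool.Agent.Helper52.OT
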