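import Pool.Agent.Helper94.T1.ConeComp
import Pool.Agent.Helper52.PG.Inst

/-!
Planar certificates: closed surfaces of positive Euler characteristic which are made of paths
through the vertices and of paths through the faces prove a bound for the slopes by the rules of
positivity.
-/

set_option autoImplicit false

namespace Pool.Agent.Helper52.OT

open Pool.Agent.Helper42.Th (CMap Lab)
open Pool.Agent.Helper72.T1 (Cyc)
open Equiv

universe u

/-- The dart `d` starts at the start of `δ`, or it ends at the end of `δ`, or it has a face in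
common with `δ`, such that `d` and `δ` are oriented in opposite ways. -/
def Near {E : Type} (Γ : CMap E) (δ d : E) : Prop :=
  Γ.rot.SameCycle δ d ∨ Γ.rot.SameCycle (Γ.flip δ) (Γ.flip d) ∨
    Γ.dual.rot.SameCycle (Γ.flip δ) d ∨ Γ.dual.rot.SameCycle δ (Γ.flip d)

/-- The faces of `e` and `g` are equal, or one passes from the face of `e` to the face of `g`
across edges which touch `δ`. -/
inductive Across {E : Type} (Γ : CMap E) (δ : E) (e : E) : E → Prop
  | same (g : E) (h : Γ.dual.rot.SameCycle e g) : Across Γ δ e g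
  | pass (f g : E) (h : Across Γ δ e f) (hf : Near Γ δ f) (h1 : f ≠ δ) (h2 : f ≠ Γ.flip δ)
      (hg : Γ.dual.rot.SameCycle (Γ.flip f) g) : Across Γ δ e g

open Classical in
/-- The letter of the dart `d` ends at the end of `d`; the letter of `δ` starts and ends at the
start of `δ`. -/
noncomputable def fin {E : Type} (Γ : CMap E) (δ d : E) : E := if d = δ then δ else Γ.flip d

lemma eq_of_same {α β : Type*} (σ : Perm α) (f : α → β) (h : ∀ d, f (σ d) = f d) {d e : α}
    (hde : σ.SameCycle d e) : f d = f e := by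
  have key : ∀ (n : ℕ) (d : α), f ((σ ^ n) d) = f d := by
    intro n
    induction n with
    | zero => intro d; rfl
    | succ n ih => intro d; rw [pow_succ', Perm.mul_apply, h, ih]
  obtain ⟨n, rfl⟩ := hde
  obtain ⟨m, rfl | rfl⟩ := Int.eq_nat_or_neg n
  · rw [zpow_natCast, key]
  · have h1 := key m ((σ ^ (-(m : ℤ))) d)
    rw [← h1, ← zpow_natCast, ← Perm.mul_apply, ← zpow_add, add_neg_cancel, zpow_zero,
      Perm.one_apply]

lemma potential {W : Type u} [Finite W] (a : Perm W) (f g : W → ℕ) :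
    ∃ (A B : W → ℤ) (C : Set W),
      (∀ x ∉ C, A (a x) = A x + f x ∧ B (a x) = B x + g x) ∧
      (∀ x ∈ C, ∃ (y : W) (n : ℕ), 0 < n ∧ (a ^ n) y = y ∧ a.SameCycle x y ∧
        A x + f x - A (a x) = ((∑ k ∈ Finset.range n, f ((a ^ k) y) : ℕ) : ℤ) ∧
        B x + g x - B (a x) = ((∑ k ∈ Finset.range n, g ((a ^ k) y) : ℕ) : ℤ)) ∧
      ∀ D : Set W, D.Nonempty → (∀ w, a w ∈ D ↔ w ∈ D) → ∃ x ∈ C, x ∈ D := by
  classical
  let r : W → W := fun x => (Quotient.mk (Perm.SameCycle.setoid a) x).out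
  have hr : ∀ x, a.SameCycle (r x) x := fun x => Quotient.mk_out (s := Perm.SameCycle.setoid a) x
  have hrr : ∀ x y, a.SameCycle x y → r x = r y := by
    intro x y h
    have h1 : Quotient.mk (Perm.SameCycle.setoid a) x = Quotient.mk (Perm.SameCycle.setoid a) y :=
      Quotient.sound h
    show (Quotient.mk (Perm.SameCycle.setoid a) x).out =
      (Quotient.mk (Perm.SameCycle.setoid a) y).out
    rw [h1]
  have hra : ∀ x, r (a x) = r x := fun x =>
    hrr _ _ (Perm.sameCycle_apply_left.2 (Perm.SameCycle.refl _ _))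
  have hex : ∀ x, ∃ n : ℕ, (a ^ n) (r x) = x := fun x => (hr x).exists_nat_pow_eq
  let n : W → ℕ := fun x => Nat.find (hex x)
  have hn : ∀ x, (a ^ n x) (r x) = x := fun x => Nat.find_spec (hex x)
  have hmin : ∀ x m, (a ^ m) (r x) = x → n x ≤ m := fun x m h => Nat.find_min' (hex x) h
  have hstep : ∀ x, a x ≠ r x → n (a x) = n x + 1 := by
    intro x hx
    apply le_antisymm
    · apply hmin
      rw [hra, pow_succ', Perm.mul_apply, hn]
    · have h1 := hn (a x)
      rw [hra] at h1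
      rcases h2 : n (a x) with _ | m
      · rw [h2] at h1
        exact absurd h1.symm hx
      · rw [h2, pow_succ', Perm.mul_apply] at h1
        have h3 := hmin x m (a.injective h1)
        omega
  have hzero : ∀ x, a x = r x → n (a x) = 0 := by
    intro x hx
    have := hmin (a x) 0 (by rw [hra, pow_zero, Perm.one_apply, hx])
    omega
  let S : (W → ℕ) → W → ℤ := fun h x => ((∑ k ∈ Finset.range (n x), h ((a ^ k) (r x)) : ℕ) : ℤ)
  have hS : ∀ (h : W → ℕ) (x : W),
      ((∑ k ∈ Finset.range (n x + 1), h ((a ^ k) (r x)) : ℕ) : ℤ) = S h x + h x := by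
    intro h x
    rw [Finset.sum_range_succ, hn, Nat.cast_add]
  refine ⟨S f, S g, {x | a x = r x}, ?_, ?_, ?_⟩
  · intro x hx
    have h1 : ∀ h : W → ℕ, S h (a x) = S h x + h x := by
      intro h
      rw [← hS]
      show ((∑ k ∈ Finset.range (n (a x)), h ((a ^ k) (r (a x))) : ℕ) : ℤ) = _
      rw [hstep x hx, hra]
    exact ⟨h1 f, h1 g⟩
  · intro x hx
    have h1 : ∀ h : W → ℕ, S h (a x) = 0 := by
      intro h
      show ((∑ k ∈ Finset.range (n (a x)), h ((a ^ k) (r (a x))) : ℕ) : ℤ) = _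
      rw [hzero x hx]
      rfl
    refine ⟨r x, n x + 1, Nat.succ_pos _, ?_, (hr x).symm, ?_, ?_⟩
    · rw [pow_succ', Perm.mul_apply, hn]
      exact hx
    · rw [hS, h1, sub_zero]
    · rw [hS, h1, sub_zero]
  · rintro D ⟨w, hw⟩ hD
    have h1 : r w ∈ D := by
      have h2 := eq_of_same a (fun z => z ∈ D) (fun z => propext (hD z)) (hr w)
      exact h2.mpr hw
    refine ⟨a⁻¹ (r w), ?_, ?_⟩
    · show a (a⁻¹ (r w)) = r (a⁻¹ (r w))
      have h3 : a (a⁻¹ (r w)) = r w := by simp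
      rw [h3, ← hra (a⁻¹ (r w)), h3]
      exact (hrr _ _ (hr w)).symm
    · rw [← hD]
      have h3 : a (a⁻¹ (r w)) = r w := by simp
      rw [h3]
      exact h1

section rules

variable {E : Type} {G : Type u} [Group G] {Γ : CMap E} {L : Lab G Γ} {δ : E} {q p : ℕ}

lemma x_same {d e : E} (h : Γ.rot.SameCycle d e) : L.x d = L.x e := eq_of_same _ _ L.x_rot h

lemma y_same {d e : E} (h : Γ.dual.rot.SameCycle d e) : L.y d = L.y e :=
  eq_of_same _ _ L.y_rot h

lemma x_mem (d : E) : L.x d ∈ Subgroup.closure L.elts := Subgroup.subset_closure (Or.inl ⟨d, rfl⟩)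

lemma y_mem (d : E) : L.y d ∈ Subgroup.closure L.elts := Subgroup.subset_closure (Or.inr ⟨d, rfl⟩)

lemma D_mem (d : E) : L.D d ∈ Subgroup.closure L.elts := mul_mem (inv_mem (x_mem _)) (x_mem _)

lemma M_mem (d : E) : L.M d ∈ Subgroup.closure L.elts := mul_mem (inv_mem (y_mem _)) (y_mem _)

lemma exists_out (Γ : CMap E) {W : Set E} (hW : ∀ c, Γ.rot c ∈ W ↔ c ∈ W) {δ d : E} (h1 : δ ∉ W)
    (hd : d ∈ W) : ∃ e, Join Γ W d e ∧ e ∈ W ∧ Γ.flip e ∉ W := by
  by_contra hn
  push Not at hn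
  have hJ : ∀ e, Join Γ W d e → e ∈ W := fun e he =>
    he.2 W subset_rfl hd fun c hc => ⟨(hW c).2 hc, fun h => h⟩
  have hu : {e | Join Γ W d e} = Set.univ := by
    refine Γ.conn _ ⟨d, hd, fun S _ h _ => h⟩ ?_
    intro e he
    refine ⟨⟨hd, fun S hS h hc => (hc e (he.2 S hS h hc)).1⟩,
      ⟨hd, fun S hS h hc => (hc e (he.2 S hS h hc)).2 (hn e he (hJ e he))⟩⟩
  exact h1 (hJ δ (by
    have : δ ∈ {e | Join Γ W d e} := by rw [hu]; trivial
    exact this))

lemma pos_one' {g : G} (h : g = 1) : Pos Γ L δ q p false g := h ▸ Pos.one Γ L δ q p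

/-- The labels of the vertices are between the labels of the ends of `δ`. -/
lemma x_bounds (e : E) : Pos Γ L δ q p false ((L.x e)⁻¹ * L.x δ) ∧
    Pos Γ L δ q p false ((L.x (Γ.flip δ))⁻¹ * L.x e) := by
  have hD : Pos Γ L δ q p false ((L.x (Γ.flip δ))⁻¹ * L.x δ) :=
    Pos.weak _ _ _ _ _ _ (Pos.start Γ L δ q p)
  by_cases hu : Γ.rot.SameCycle δ e
  · rw [← x_same (L := L) hu]
    exact ⟨pos_one' (inv_mul_cancel _), hD⟩
  by_cases hv : Γ.rot.SameCycle (Γ.flip δ) e
  · rw [← x_same (L := L) hv]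
    exact ⟨hD, pos_one' (inv_mul_cancel _)⟩
  let W : Set E := {c | ¬ Γ.rot.SameCycle δ c ∧ ¬ Γ.rot.SameCycle (Γ.flip δ) c}
  have hW : ∀ c, Γ.rot c ∈ W ↔ c ∈ W := by
    intro c
    show (¬ _ ∧ ¬ _) ↔ (¬ _ ∧ ¬ _)
    rw [Perm.sameCycle_apply_right, Perm.sameCycle_apply_right]
  have h1 : δ ∉ W := fun h => h.1 (Perm.SameCycle.refl _ _)
  have h2 : Γ.flip δ ∉ W := fun h => h.2 (Perm.SameCycle.refl _ _)
  obtain ⟨e₁, hj, -, hout⟩ := exists_out Γ hW h1 (show e ∈ W from ⟨hu, hv⟩)
  have hb : ∀ c, c ∉ W → L.x c = L.x δ ∨ L.x c = L.x (Γ.flip δ) := by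
    intro c hc
    by_contra hn
    push Not at hn
    exact hc ⟨fun h => hn.1 (x_same h).symm, fun h => hn.2 (x_same h).symm⟩
  have hmax : ∀ c, c ∉ W → Pos Γ L δ q p false ((L.x c)⁻¹ * L.x δ) := by
    intro c hc
    rcases hb c hc with h | h
    · exact pos_one' (by rw [h, inv_mul_cancel])
    · rw [h]; exact hD
  have hmin : ∀ c, c ∉ W → Pos Γ L δ q p false ((L.x (Γ.flip δ))⁻¹ * L.x c) := by
    intro c hc
    rcases hb c hc with h | h
    · rw [h]; exact hD
    · exact pos_one' (by rw [h, inv_mul_cancel])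
  exact ⟨Pos.maxV Γ L δ q p false e e₁ _ W hW h1 h2 (fun c _ hc => hmax _ hc) hj (hmax _ hout),
    Pos.minV Γ L δ q p false e e₁ _ W hW h1 h2 (fun c _ hc => hmin _ hc) hj (hmin _ hout)⟩

/-- The labels of the faces are between the labels of the sides of `δ`. -/
lemma y_bounds (e : E) : Pos Γ L δ q p false ((L.y e)⁻¹ * L.y (Γ.flip δ)) ∧
    Pos Γ L δ q p false ((L.y δ)⁻¹ * L.y e) := by
  have hM : Pos Γ L δ q p false ((L.y δ)⁻¹ * L.y (Γ.flip δ)) := by
    have h := Pos.weak _ _ _ _ _ _ (Pos.neg Γ L δ q p)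
    have e1 : (L.M δ)⁻¹ = (L.y δ)⁻¹ * L.y (Γ.flip δ) := by
      unfold Lab.M
      group
    rwa [e1] at h
  by_cases hu : Γ.dual.rot.SameCycle δ e
  · rw [← y_same (L := L) hu]
    exact ⟨hM, pos_one' (inv_mul_cancel _)⟩
  by_cases hv : Γ.dual.rot.SameCycle (Γ.flip δ) e
  · rw [← y_same (L := L) hv]
    exact ⟨pos_one' (inv_mul_cancel _), hM⟩
  let W : Set E := {c | ¬ Γ.dual.rot.SameCycle δ c ∧ ¬ Γ.dual.rot.SameCycle (Γ.flip δ) c}
  have hW : ∀ c, Γ.dual.rot c ∈ W ↔ c ∈ W := by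
    intro c
    show (¬ _ ∧ ¬ _) ↔ (¬ _ ∧ ¬ _)
    rw [Perm.sameCycle_apply_right, Perm.sameCycle_apply_right]
  have h1 : δ ∉ W := fun h => h.1 (Perm.SameCycle.refl _ _)
  have h2 : Γ.flip δ ∉ W := fun h => h.2 (Perm.SameCycle.refl _ _)
  obtain ⟨e₁, hj, -, hout⟩ := exists_out Γ.dual hW h1 (show e ∈ W from ⟨hu, hv⟩)
  have hb : ∀ c, c ∉ W → L.y c = L.y δ ∨ L.y c = L.y (Γ.flip δ) := by
    intro c hc
    by_contra hn
    push Not at hn
    exact hc ⟨fun h => hn.1 (y_same h).symm, fun h => hn.2 (y_same h).symm⟩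
  have hmax : ∀ c, c ∉ W → Pos Γ L δ q p false ((L.y c)⁻¹ * L.y (Γ.flip δ)) := by
    intro c hc
    rcases hb c hc with h | h
    · rw [h]; exact hM
    · exact pos_one' (by rw [h, inv_mul_cancel])
  have hmin : ∀ c, c ∉ W → Pos Γ L δ q p false ((L.y δ)⁻¹ * L.y c) := by
    intro c hc
    rcases hb c hc with h | h
    · exact pos_one' (by rw [h, inv_mul_cancel])
    · rw [h]; exact hM
  exact ⟨Pos.maxF Γ L δ q p false e e₁ _ W hW h1 h2 (fun c _ hc => hmax _ hc) hj (hmax _ hout),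
    Pos.minF Γ L δ q p false e e₁ _ W hW h1 h2 (fun c _ hc => hmin _ hc) hj (hmin _ hout)⟩

/-- A dart which touches `δ` has a sign. -/
lemma pos_near {d : E} (hd : Near Γ δ d) (h1 : d ≠ δ) (h2 : d ≠ Γ.flip δ) :
    Pos Γ L δ q p false (L.D d) ∧ Pos Γ L δ q p false (L.M d) := by
  have hD : Pos Γ L δ q p false (L.D d) → Pos Γ L δ q p false (L.D d) ∧
      Pos Γ L δ q p false (L.M d) := fun h => ⟨h, Pos.toM _ _ _ _ _ _ _ h1 h2 h⟩
  have hM : Pos Γ L δ q p false (L.M d) → Pos Γ L δ q p false (L.D d) ∧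
      Pos Γ L δ q p false (L.M d) := fun h => ⟨Pos.toD _ _ _ _ _ _ _ h1 h2 h, h⟩
  rcases hd with h | h | h | h
  · apply hD
    unfold Lab.D
    rw [← x_same (L := L) h]
    exact (x_bounds (Γ.flip d)).1
  · apply hD
    unfold Lab.D
    rw [← x_same (L := L) h]
    exact (x_bounds d).2
  · apply hM
    unfold Lab.M
    rw [← y_same (L := L) h]
    exact (y_bounds (Γ.flip d)).1
  · apply hM
    unfold Lab.M
    rw [← y_same (L := L) h]
    exact (y_bounds d).2

lemma pos_across {e g : E} (h : Across Γ δ e g) : Pos Γ L δ q p false (L.y e * (L.y g)⁻¹) := by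
  induction h with
  | same g h => exact pos_one' (by rw [y_same (L := L) h, mul_inv_cancel])
  | pass f g _ hf h1 h2 hg ih =>
    have h3 := Pos.conj Γ L δ q p false _ _ (y_mem (L := L) f) (pos_near (L := L) (q := q) (p := p) hf h1 h2).2
    have h4 := Pos.mul Γ L δ q p false false _ _ ih h3
    have e1 : L.y e * (L.y f)⁻¹ * (L.y f * L.M f * (L.y f)⁻¹) = L.y e * (L.y g)⁻¹ := by
      rw [← y_same (L := L) hg]
      unfold Lab.M
      group
    rwa [e1] at h4

lemma pos_pow {t : Bool} {g : G} (h : Pos Γ L δ q p t g) : ∀ n : ℕ,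
    Pos Γ L δ q p (t && decide (0 < n)) (g ^ n) := by
  intro n
  induction n with
  | zero => exact pos_one' (pow_zero g) |> fun h => by simpa using h
  | succ n ih =>
    rw [pow_succ]
    have h1 := Pos.mul Γ L δ q p _ _ _ _ ih h
    cases t
    · simpa using h1
    · simpa using h1

lemma comm_DM : Commute (L.D δ) (L.M δ) := (L.comm δ).symm

/-- The words in `D δ` and `M δ` of smaller slope are positive. -/
lemma pos_DM (hp : 0 < p) {i j : ℕ} (h : q * j ≤ p * i) :
    Pos Γ L δ q p (decide (q * j < p * i)) (L.D δ ^ i * L.M δ ^ j) := by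
  have hc : Commute (L.D δ) (L.M δ) := comm_DM
  obtain ⟨k, hk⟩ : ∃ k, p * i = q * j + k := ⟨p * i - q * j, by omega⟩
  have hk0 : (q * j < p * i) ↔ 0 < k := by omega
  rw [decide_eq_decide.2 hk0]
  refine Pos.root Γ L δ q p _ _ p (mul_mem (pow_mem (D_mem _) _) (pow_mem (M_mem _) _)) hp ?_
  have e1 : (L.D δ ^ i * L.M δ ^ j) ^ p = L.D δ ^ k * (L.D δ ^ q * L.M δ ^ p) ^ j := by
    rw [(hc.pow_pow i j).mul_pow, (hc.pow_pow q p).mul_pow, ← pow_mul, ← pow_mul, ← pow_mul,
      ← pow_mul, ← mul_assoc, ← pow_add, mul_comm i p, hk, add_comm k, mul_comm j p]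
  rw [e1]
  have h1 := pos_pow (Pos.start Γ L δ q p) k
  have h2 := pos_pow (Pos.slope Γ L δ q p) j
  have h3 := Pos.mul Γ L δ q p _ _ _ _ h1 h2
  simpa using h3

end rules

section main

variable {E : Type} {G : Type u} [Group G] {Γ : CMap E} {L : Lab G Γ} {δ : E} {q p : ℕ}

/-- The planar lemma for the preorder of the rules. -/
theorem sphere {W : Type} [Finite W] (a b : Perm W) (g m s t : W → G)
    (hg : ∀ w, g w ∈ Subgroup.closure L.elts) (hm : ∀ w, m w ∈ Subgroup.closure L.elts)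
    (hs : ∀ w, s w ∈ Subgroup.closure L.elts) (ht : ∀ w, t w ∈ Subgroup.closure L.elts)
    (cell : ∀ w, Pos Γ L δ q p false ((g w)⁻¹ * m w))
    (col : ∀ w, Pos Γ L δ q p false ((s (a w))⁻¹ * (g w * s w)))
    (row : ∀ w, Pos Γ L δ q p false ((m w * t w)⁻¹ * t (b w)))
    (str : ∀ C : Set W, C.Nonempty → (∀ w, a w ∈ C ↔ w ∈ C) → (∀ w, b w ∈ C ↔ w ∈ C) →
      ∃ w ∈ C, Pos Γ L δ q p true ((g w)⁻¹ * m w) ∨
        Pos Γ L δ q p true ((s (a w))⁻¹ * (g w * s w)) ∨
        Pos Γ L δ q p true ((m w * t w)⁻¹ * t (b w)))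
    (hcard : Nat.card W < Nat.card (Cyc a) + Nat.card (Cyc b) + Nat.card (Cyc (b * a⁻¹))) :
    Pos Γ L δ q p true 1 := by
  classical
  have _ : Fintype W := Fintype.ofFinite W
  have _ : Fintype (Cyc a) := Fintype.ofFinite _
  have _ : Fintype (Cyc b) := Fintype.ofFinite _
  have _ : Fintype (Cyc (b * a⁻¹)) := Fintype.ofFinite _
  rw [Nat.card_eq_fintype_card, Nat.card_eq_fintype_card, Nat.card_eq_fintype_card,
    Nat.card_eq_fintype_card] at hcard
  have e1 : ∀ w, (m w * t w * (t w)⁻¹) = m w := fun w => by group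
  have e2 : ∀ w, (g w * s w * (s w)⁻¹) = g w := fun w => by group
  refine Pool.Agent.Helper94.T1.cone_component (K := Subgroup.closure L.elts)
    (Pool.Agent.Helper52.PG.cone_pos Γ L δ q p) a b
    (fun w => (Quotient.mk _ w : Cyc a)) (fun w => (Quotient.mk _ w : Cyc b))
    (fun w => (Quotient.mk _ w : Cyc (b * a⁻¹)))
    (fun w => Quotient.sound (Perm.sameCycle_apply_left.2 (Perm.SameCycle.refl _ _)))
    (fun w => Quotient.sound (Perm.sameCycle_apply_left.2 (Perm.SameCycle.refl _ _)))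
    ?_ Quotient.mk_surjective Quotient.mk_surjective Quotient.mk_surjective hcard
    (fun w => ⟨s w, hs w⟩) (fun w => ⟨g w * s w, mul_mem (hg w) (hs w)⟩)
    (fun w => ⟨t w, ht w⟩) (fun w => ⟨m w * t w, mul_mem (hm w) (ht w)⟩) ?_ ?_ ?_ ?_
  · intro w
    refine Quotient.sound ?_
    have h3 : (b * a⁻¹) (a w) = b w := by simp
    rw [← h3]
    exact Perm.sameCycle_apply_right.2 (Perm.SameCycle.refl _ _)
  · intro w
    show Pos Γ L δ q p false ((g w * s w * (s w)⁻¹)⁻¹ * (m w * t w * (t w)⁻¹))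
    rw [e1, e2]
    exact cell w
  · exact col
  · exact row
  · intro C h1 h2 h3
    obtain ⟨w, hw, h4⟩ := str C h1 h2 h3
    refine ⟨w, hw, ?_⟩
    show Pos Γ L δ q p true ((g w * s w * (s w)⁻¹)⁻¹ * (m w * t w * (t w)⁻¹)) ∨
        Pos Γ L δ q p true ((s (a w))⁻¹ * (g w * s w)) ∨
        Pos Γ L δ q p true ((m w * t w)⁻¹ * t (b w))
    rw [e1, e2]
    exact h4

lemma sum_shift {W : Type*} (a : Perm W) (f : W → ℕ) {w : W} {n : ℕ} (h : (a ^ n) w = w) :
    ∑ k ∈ Finset.range n, f ((a ^ k) (a w)) = ∑ k ∈ Finset.range n, f ((a ^ k) w) := by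
  have h1 := Finset.sum_range_succ (fun k => f ((a ^ k) w)) n
  have h2 := Finset.sum_range_succ' (fun k => f ((a ^ k) w)) n
  rw [h1, h] at h2
  have h3 : ∀ k, f ((a ^ (k + 1)) w) = f ((a ^ k) (a w)) := fun k => by
    rw [pow_succ, Perm.mul_apply]
  simp only [h3, pow_zero, Perm.one_apply] at h2
  omega

/-- **Planar certificates.**  Let `W` be a finite set, every element `w` of which stands for a dart
`c w`: a crossing, or a ball which touches `δ` and is filled with slopes at least `1`, or `δ`.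
The permutations `a` and `b` connect the elements: the dart `c w` ends at the vertex where
`c (a w)` starts (`J` is the set of the elements after which one passes from the end of `δ` to
its start; the letter of `δ` starts and ends at the start of `δ`), and the face on one side of
`c w` is the face on the other side of `c (b w)`, or it is joined to it across edges which touch
`δ`.  Every closed path of `a` meets `δ` at most `p / q` times as often as `J`, and every
component contains something strict.  If the permutations `a`, `b` and `b * a⁻¹` have together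
more cycles than `W` has elements, the slopes at `δ` are at least `q / p`. -/
theorem certificate {W : Type} [Finite W] (hp : 0 < p) (a b : Perm W) (c : W → E) (J : Set W)
    (cell : ∀ w, c w = δ ∨ L.M (c w) = L.D (c w) ∨
      (Near Γ δ (c w) ∧ c w ≠ Γ.flip δ ∧ ∃ S, Fill false (L.M (c w) * (L.D (c w))⁻¹) (L.D (c w)) S))
    (col : ∀ w ∉ J, Γ.rot.SameCycle (fin Γ δ (c w)) (c (a w)))
    (colJ : ∀ w ∈ J, Γ.rot.SameCycle (fin Γ δ (c w)) (Γ.flip δ) ∧ Γ.rot.SameCycle δ (c (a w)))
    (row : ∀ w, Across Γ δ (Γ.flip (c w)) (c (b w)))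
    (cyc : ∀ w n, 0 < n → (a ^ n) w = w →
      q * {k | k < n ∧ c ((a ^ k) w) = δ}.ncard ≤ p * {k | k < n ∧ (a ^ k) w ∈ J}.ncard)
    (str : ∀ C : Set W, C.Nonempty → (∀ w, a w ∈ C ↔ w ∈ C) → (∀ w, b w ∈ C ↔ w ∈ C) →
      ∃ w ∈ C, (∀ n, 0 < n → (a ^ n) w = w →
        q * {k | k < n ∧ c ((a ^ k) w) = δ}.ncard < p * {k | k < n ∧ (a ^ k) w ∈ J}.ncard) ∨
        Pos Γ L δ q p true (L.y (Γ.flip (c w)) * (L.y (c (b w)))⁻¹))
    (euler : Nat.card W < Nat.card (Cyc a) + Nat.card (Cyc b) + Nat.card (Cyc (b * a⁻¹))) :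
    Pos Γ L δ q p true 1 := by
  classical
  have hc : Commute (L.D δ) (L.M δ) := comm_DM
  obtain ⟨A, B, C, h1, h2, h3⟩ := potential a (fun w => if w ∈ J then 1 else 0)
    (fun w => if c w = δ then 1 else 0)
  have hcount : ∀ (n : ℕ) (P : ℕ → Prop), {k | k < n ∧ P k}.ncard =
      ∑ k ∈ Finset.range n, if P k then 1 else 0 := by
    intro n P
    rw [← Finset.card_filter, ← Set.ncard_coe_finset]
    congr 1
    ext k
    simp
  have key : ∀ i j k l : ℤ, (L.D δ ^ i * L.M δ ^ j)⁻¹ * (L.D δ ^ k * L.M δ ^ l) =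
      L.D δ ^ (k - i) * L.M δ ^ (l - j) := by
    intro i j k l
    have h4 : L.M δ ^ j * L.D δ ^ (k - i) = L.D δ ^ (k - i) * L.M δ ^ j :=
      (hc.symm.zpow_zpow j (k - i)).eq
    rw [inv_mul_eq_iff_eq_mul]
    symm
    calc L.D δ ^ i * L.M δ ^ j * (L.D δ ^ (k - i) * L.M δ ^ (l - j))
        = L.D δ ^ i * (L.M δ ^ j * L.D δ ^ (k - i)) * L.M δ ^ (l - j) := by simp only [mul_assoc]
      _ = L.D δ ^ i * (L.D δ ^ (k - i) * L.M δ ^ j) * L.M δ ^ (l - j) := by rw [h4]
      _ = L.D δ ^ i * L.D δ ^ (k - i) * (L.M δ ^ j * L.M δ ^ (l - j)) := by simp only [mul_assoc]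
      _ = L.D δ ^ k * L.M δ ^ l := by
        rw [← zpow_add, ← zpow_add, add_sub_cancel, add_sub_cancel]
  let g : W → G := fun w => if c w = δ then L.M δ else L.D (c w)
  let s : W → G := fun w => (L.x (c w))⁻¹ * L.x δ * (L.D δ ^ A w * L.M δ ^ B w)
  have hgs : ∀ w, g w * s w = (L.x (fin Γ δ (c w)))⁻¹ * L.x δ *
      (L.D δ ^ A w * L.M δ ^ (B w + if c w = δ then 1 else 0)) := by
    intro w
    show (if c w = δ then L.M δ else L.D (c w)) * ((L.x (c w))⁻¹ * L.x δ * (L.D δ ^ A w * L.M δ ^ B w)) = _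
    by_cases h : c w = δ
    · rw [if_pos h, if_pos h, h]
      unfold fin
      rw [if_pos rfl, inv_mul_cancel, one_mul, one_mul, zpow_add_one, ← mul_assoc, ← mul_assoc,
        ((hc.symm.zpow_right (A w)).eq), mul_assoc, mul_assoc,
        ((Commute.refl (L.M δ)).zpow_right (B w)).eq]
    · rw [if_neg h, if_neg h, add_zero]
      unfold fin Lab.D
      rw [if_neg h]
      group
  have hval : ∀ w, (s (a w))⁻¹ * (g w * s w) =
      L.D δ ^ (A w + (if w ∈ J then 1 else 0) - A (a w)) *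
        L.M δ ^ (B w + (if c w = δ then 1 else 0) - B (a w)) := by
    intro w
    rw [hgs]
    show ((L.x (c (a w)))⁻¹ * L.x δ * (L.D δ ^ A (a w) * L.M δ ^ B (a w)))⁻¹ * _ = _
    by_cases h : w ∈ J
    · obtain ⟨h4, h5⟩ := colJ w h
      have e1 : (L.x (Γ.flip δ))⁻¹ * L.x δ = L.D δ := rfl
      have e2 : ∀ X : G, L.D δ * (L.D δ ^ A w * X) = L.D δ ^ (A w + 1) * X := by
        intro X
        rw [← mul_assoc, ← zpow_one_add, add_comm]
      rw [x_same (L := L) h4, ← x_same (L := L) h5, if_pos h, inv_mul_cancel, one_mul, e1, e2, key]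
    · rw [x_same (L := L) (col w h), if_neg h, add_zero, ← key]
      group
  simp only [hcount] at cyc str
  have hclose : ∀ w ∈ C, Pos Γ L δ q p false ((s (a w))⁻¹ * (g w * s w)) ∧
      ((∀ y, a.SameCycle w y → ∀ n, 0 < n → (a ^ n) y = y →
        (q * ∑ k ∈ Finset.range n, if c ((a ^ k) y) = δ then 1 else 0) <
          p * ∑ k ∈ Finset.range n, if (a ^ k) y ∈ J then 1 else 0) →
        Pos Γ L δ q p true ((s (a w))⁻¹ * (g w * s w))) := by
    intro w hw
    obtain ⟨y, n, hn, hy, hwy, hA, hB⟩ := h2 w hw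
    have h4 := cyc y n hn hy
    have h5 := pos_DM (L := L) (δ := δ) hp h4
    have e1 : A w + (if w ∈ J then 1 else 0) - A (a w) =
        ((∑ k ∈ Finset.range n, if (a ^ k) y ∈ J then 1 else 0 : ℕ) : ℤ) := by
      rw [← hA]
      push_cast
      rfl
    have e2 : B w + (if c w = δ then 1 else 0) - B (a w) =
        ((∑ k ∈ Finset.range n, if c ((a ^ k) y) = δ then 1 else 0 : ℕ) : ℤ) := by
      rw [← hB]
      push_cast
      rfl
    rw [hval, e1, e2, zpow_natCast, zpow_natCast]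
    constructor
    · by_cases h6 : (q * ∑ k ∈ Finset.range n, if c ((a ^ k) y) = δ then 1 else 0) <
          p * ∑ k ∈ Finset.range n, if (a ^ k) y ∈ J then 1 else 0
      · rw [decide_eq_true h6] at h5
        exact Pos.weak _ _ _ _ _ _ h5
      · rwa [decide_eq_false h6] at h5
    · intro h6
      rwa [decide_eq_true (h6 y hwy n hn hy)] at h5
  refine sphere (L := L) a b g (fun w => L.M (c w)) s (fun w => (L.y (c w))⁻¹) ?_ ?_ ?_ ?_ ?_ ?_ ?_ ?_ euler
  · intro w
    show (if c w = δ then L.M δ else L.D (c w)) ∈ _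
    split_ifs
    · exact M_mem _
    · exact D_mem _
  · intro w
    exact M_mem _
  · intro w
    exact mul_mem (mul_mem (inv_mem (x_mem _)) (x_mem _))
      (mul_mem (zpow_mem (D_mem _) _) (zpow_mem (M_mem _) _))
  · intro w
    exact inv_mem (y_mem _)
  · intro w
    show Pos Γ L δ q p false ((if c w = δ then L.M δ else L.D (c w))⁻¹ * L.M (c w))
    by_cases h : c w = δ
    · rw [if_pos h, h]
      exact pos_one' (inv_mul_cancel _)
    rw [if_neg h]
    rcases cell w with h4 | h4 | ⟨h4, h5, S, h6⟩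
    · exact absurd h4 h
    · rw [h4]
      exact pos_one' (inv_mul_cancel _)
    · have h7 := (pos_near (L := L) (q := q) (p := p) h4 h h5).1
      have h8 := Pos.fill Γ L δ q p false false (c w) 1 (-1) 0 1 S (by simpa using h6) (by simpa using h7)
      have hcw : Commute (L.M (c w)) (L.D (c w)) := L.comm (c w)
      have e1 : (L.D (c w))⁻¹ * L.M (c w) = L.M (c w) * (L.D (c w))⁻¹ :=
        (hcw.symm.inv_left).eq
      rw [e1]
      simpa using h8
  · intro w
    show Pos Γ L δ q p false ((s (a w))⁻¹ * (g w * s w))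
    by_cases h : w ∈ C
    · exact (hclose w h).1
    · obtain ⟨h4, h5⟩ := h1 w h
      refine pos_one' ?_
      have h6 : A w + (if w ∈ J then 1 else 0) - A (a w) = 0 := by
        rw [h4]
        push_cast
        ring
      have h7 : B w + (if c w = δ then 1 else 0) - B (a w) = 0 := by
        rw [h5]
        push_cast
        ring
      rw [hval, h6, h7, zpow_zero, zpow_zero, mul_one]
  · intro w
    have h4 := pos_across (L := L) (q := q) (p := p) (row w)
    have e1 : (L.M (c w) * (L.y (c w))⁻¹)⁻¹ * (L.y (c (b w)))⁻¹ =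
        L.y (Γ.flip (c w)) * (L.y (c (b w)))⁻¹ := by
      unfold Lab.M
      group
    show Pos Γ L δ q p false ((L.M (c w) * (L.y (c w))⁻¹)⁻¹ * (L.y (c (b w)))⁻¹)
    rw [e1]
    exact h4
  · intro Z hZ hZa hZb
    obtain ⟨w, hwZ, hw | hw⟩ := str Z hZ hZa hZb
    · -- a closed path of `a` which is strict
      have hgood : ∀ y, a.SameCycle w y → ∀ n, 0 < n → (a ^ n) y = y →
          (q * ∑ k ∈ Finset.range n, if c ((a ^ k) y) = δ then 1 else 0) <
            p * ∑ k ∈ Finset.range n, if (a ^ k) y ∈ J then 1 else 0 := by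
        intro y hy
        have h4 := eq_of_same a (fun y => ∀ n, 0 < n → (a ^ n) y = y →
          (q * ∑ k ∈ Finset.range n, if c ((a ^ k) y) = δ then 1 else 0) <
            p * ∑ k ∈ Finset.range n, if (a ^ k) y ∈ J then 1 else 0) (fun y => ?_) hy
        · exact h4.mp hw
        · refine propext (forall_congr' fun n => forall_congr' fun _ => ?_)
          have h5 : (a ^ n) (a y) = a y ↔ (a ^ n) y = y := by
            rw [← Perm.mul_apply, ← pow_succ, pow_succ', Perm.mul_apply, a.injective.eq_iff]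
          constructor
          · intro h6 h7
            have h8 := h6 (h5.2 h7)
            rwa [sum_shift a (fun y => if c y = δ then 1 else 0) h7,
              sum_shift a (fun y => if y ∈ J then 1 else 0) h7] at h8
          · intro h6 h7
            rw [sum_shift a (fun y => if c y = δ then 1 else 0) (h5.1 h7),
              sum_shift a (fun y => if y ∈ J then 1 else 0) (h5.1 h7)]
            exact h6 (h5.1 h7)
      obtain ⟨v, hv, hvw⟩ := h3 {y | a.SameCycle w y} ⟨w, Perm.SameCycle.refl _ _⟩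
        (fun y => Perm.sameCycle_apply_right)
      have hvZ : v ∈ Z := (eq_of_same a (fun z => z ∈ Z) (fun z => propext (hZa z)) hvw).mp hwZ
      exact ⟨v, hvZ, Or.inr (Or.inl ((hclose v hv).2 fun y hy => hgood y (hvw.trans hy)))⟩
    · refine ⟨w, hwZ, Or.inr (Or.inr ?_)⟩
      have e1 : (L.M (c w) * (L.y (c w))⁻¹)⁻¹ * (L.y (c (b w)))⁻¹ =
          L.y (Γ.flip (c w)) * (L.y (c (b w)))⁻¹ := by
        unfold Lab.M
        group
      show Pos Γ L δ q p true ((L.M (c w) * (L.y (c w))⁻¹)⁻¹ * (L.y (c (b w)))⁻¹)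
      rw [e1]
      exact hw

end main

end Pool.Agent.Helper52.OT
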