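import Pool.Agent.Helper52.OT.Root
import Pool.Agent.Helper52.OT.Sound

/-!
Closed manifolds glued along trees from double branched covers of the complements of crossing
balls of alternating diagrams: if the rules of positivity give the element `1` for the intervals
of slopes of the pieces, the fundamental group is not left-orderable.
-/

set_option autoImplicit false

namespace Pool.Agent.Helper52.OT

open Pool.Agent.Helper42.Th Pool.Agent.Helper31.T3 Pool.Agent.Helper42.T3 Pool.Agent.Helper42.T4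
open Pool.Agent.Helper31.OrderAct
open Pool.Agent.Helper71.Rot
open Pool.Agent.Helper71.Tree (FillSpec solid_spec)
open Pool.Agent.Helper24.T8 (dual HarmAt opHom comm_ab comm_pow)
open Pool.Agent.Helper52.OC (reg_of_fix reg_trans)

universe u

section low

variable {E : Type} [Finite E] {G : Type u} [Group G] {Γ : CMap E} {L : Lab G Γ} {δ : E}
  {q p : ℕ}

/-- If the rules give `1`, the slopes are at least `q / p`. -/
theorem low_calc (hl : ∀ i : ℕ, (Γ.rot ^ i) δ ≠ Γ.flip δ)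
    (hb : ∀ i : ℕ, (Γ.dual.rot ^ i) δ ≠ Γ.flip δ) (hp : 0 < p)
    (h : Mean Γ L δ q p true 1) : LowSpec Γ L δ q p := by
  refine ⟨hp, hl, hb, fun Ω _ ρ H z hz => ?_⟩
  by_contra hn
  push Not at hn
  have h₀ : LowSpec Γ L δ 0 1 := low_zero hl hb
  have fix : ∀ g ∈ Subgroup.closure L.elts, ∀ y, ρ (L.D δ) y = y → ρ g y = y := by
    intro g hg y hy
    have h1 := (all_fix (P := ∅) (F := fun _ => ∅) h₀ H
      (fun d hd => absurd hd (Set.notMem_empty d)) hy).2
    induction hg using Subgroup.closure_induction with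
    | mem g hg => exact h1 g (Or.inl hg)
    | one => rw [map_one]; rfl
    | mul a b _ _ ha hb => rw [map_mul, RelIso.mul_apply, hb, ha]
    | inv a _ ha => rw [map_inv]; exact inv_fix ha
  have hA : Act Γ L δ q p ρ {y | Reg (ρ (L.D δ)) z y} := by
    refine ⟨H, fun g hg y hy => ?_, fun y hy => reg_lt hz hy, fun y hy => ?_, fun y hy => ?_⟩
    · exact reg_trans hy (reg_of_fix (fix g hg) (reg_lt hz hy))
    · have h3 := reg_lt hz hy
      have h4 : lx L ρ (Γ.flip δ) y < lx L ρ δ y := by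
        rw [← X_D L ρ δ y]
        exact (lx L ρ (Γ.flip δ)).strictMono h3
      have h5 := (H y).sgn hl h4.le
      have h6 : ly L ρ (Γ.flip δ) y ≠ ly L ρ δ y := fun e => h4.ne ((H y).strict hb e)
      have h7 : ρ (L.M δ) y < y := by
        refine lt_of_le_of_ne ((dn_M L ρ).mpr h5) fun e => h6 ?_
        exact le_antisymm ((up_M L ρ).mp e.ge) ((dn_M L ρ).mp e.le)
      rw [← (ρ (L.M δ)).lt_iff_lt, ← RelIso.mul_apply, ← map_mul, mul_inv_cancel, map_one]
      exact h7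
    · have h3 := (ρ (L.M δ) ^ p).monotone (hn y hy)
      have h4 : (ρ (L.M δ) ^ p) ((ρ (L.M δ)⁻¹ ^ p) y) = y := by
        rw [← RelIso.mul_apply, ← map_pow, ← map_pow, ← map_mul, inv_pow, mul_inv_cancel, map_one]
        rfl
      rw [h4, ← RelIso.mul_apply, ← map_pow, ← map_pow, ← map_mul] at h3
      have hc : Commute (L.M δ) (L.D δ) := comm_MD L δ
      rwa [(hc.pow_pow p q).eq] at h3
  have h1 := (h.2 Ω ρ _ hA z (reg_self _ z)).2 rfl
  rw [map_one] at h1
  exact lt_irrefl z h1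

/-- The bound for the dual diagram. -/
theorem low_calc' (hl : ∀ i : ℕ, (Γ.rot ^ i) δ ≠ Γ.flip δ)
    (hb : ∀ i : ℕ, (Γ.dual.rot ^ i) δ ≠ Γ.flip δ) (hp : 0 < p)
    (h : Mean Γ.dual (dual L) δ q p true 1) : LowSpec Γ.dual (dual L) δ q p := by
  refine low_calc hb (fun i => ?_) hp h
  have h1 : Γ.dual.dual.rot = Γ.rot := by
    ext d
    exact Γ.flip_flip _
  rw [h1]
  exact hl i

end low

/-- The meaning of the rules and of the fillings. -/
theorem spec_of_fill {G : Type u} [Group G] {s : Bool} {m a : G} {S : Set G}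
    (h : Fill s m a S) : ∀ (Ω : Type u) [CompleteLinearOrder Ω] (ρ : G →* (Ω ≃o Ω)),
      FillSpec s (some 0) none (ρ m) (ρ a) (ρ '' S) := by
  refine Fill.rec (motive_1 := fun s m a S _ => ∀ (Ω : Type u) [CompleteLinearOrder Ω]
      (ρ : G →* (Ω ≃o Ω)), FillSpec s (some 0) none (ρ m) (ρ a) (ρ '' S))
    (motive_2 := fun {E} Γ L δ q p t g _ => Finite E → Mean Γ L δ q p t g)
    ?_ ?_ ?_ ?_ ?_ ?_ ?_ ?_ ?_ ?_ ?_ ?_ ?_ ?_ ?_ ?_ ?_ ?_ ?_ h
  · intro s m a d c hd hs h Ω _ ρ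
    rw [Set.image_empty]
    refine solid_spec (d := d) (c := c) (by exact_mod_cast hd) ?_ ?_ ?_
    · intro k' hk'
      obtain rfl := Option.some_injective _ hk'
      refine ⟨by rw [zero_mul]; exact Int.natCast_nonneg _, fun h1 h2 => ?_⟩
      have := hs h1
      omega
    · intro k' hk'
      exact absurd hk' (by simp)
    · rw [zpow_natCast, zpow_natCast, ← map_pow, ← map_pow, h]
  · intro s m a E _ Γ L δ hl hb P F hP hF q p q' p' hp hp' h₁ h₂ P₁ Q₁ P₂ Q₂ hP₁ hQ₁ hP₂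
      hQ₂ hm ha ihF ih₁ ih₂ Ω _ ρ
    rw [hm, ha]
    exact glue_spec s hP ihF (low_calc hl hb hp (ih₁ inferInstance))
      (low_calc' hl hb hp' (ih₂ inferInstance)) ⟨hP₁, hQ₁⟩ ⟨hP₂, hQ₂⟩ Ω ρ
  · intro E Γ L δ q p _
    exact Mean.one
  · intro E Γ L δ q p g _ ih hE
    exact (ih hE).weak
  · intro E Γ L δ q p t t' g g' _ _ ih ih' hE
    exact (ih hE).mul (ih' hE)
  · intro E Γ L δ q p t g c hc _ ih hE
    exact (ih hE).conj hc
  · intro E Γ L δ q p t g n hg hn _ ih hE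
    exact (ih hE).root hg hn
  · intro E Γ L δ q p _
    exact Mean.start
  · intro E Γ L δ q p _
    exact Mean.neg
  · intro E Γ L δ q p _
    exact Mean.slope
  · intro E Γ L δ q p t d h1 h2 _ ih hE
    exact (ih hE).toM h1 h2
  · intro E Γ L δ q p t d h1 h2 _ ih hE
    exact (ih hE).toD h1 h2
  · intro E Γ L δ q p s t d i j k l S _ _ ihF ih hE
    exact (ih hE).fill ihF
  · intro E Γ L δ q p t d i j k l S c _ _ _ ihF ih1 ih2 hE
    exact (ih1 hE).up ihF (ih2 hE)
  · intro E Γ L δ q p t d i j k l S c _ _ _ ihF ih1 ih2 hE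
    exact (ih1 hE).down ihF (ih2 hE)
  · intro E Γ L δ q p t d e g W hW h1 h2 _ hd _ ih iht hE
    exact Mean.minV hW h1 h2 (fun c hc hc' => ih c hc hc' hE) hd (iht hE)
  · intro E Γ L δ q p t d e g W hW h1 h2 _ hd _ ih iht hE
    exact Mean.maxV hW h1 h2 (fun c hc hc' => ih c hc hc' hE) hd (iht hE)
  · intro E Γ L δ q p t d e g W hW h1 h2 _ hd _ ih iht hE
    exact Mean.minF hW h1 h2 (fun c hc hc' => ih c hc hc' hE) hd (iht hE)
  · intro E Γ L δ q p t d e g W hW h1 h2 _ hd _ ih iht hE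
    exact Mean.maxF hW h1 h2 (fun c hc hc' => ih c hc hc' hE) hd (iht hE)

/-- The meaning of the rules. -/
theorem mean_of_pos {G : Type u} [Group G] {E : Type} [Finite E] {Γ : CMap E} {L : Lab G Γ}
    {δ : E} {q p : ℕ} {t : Bool} {g : G} (h : Pos Γ L δ q p t g) : Mean Γ L δ q p t g := by
  refine Pos.rec (motive_1 := fun _ _ _ _ _ => True)
    (motive_2 := fun {E} Γ L δ q p t g _ => Finite E → Mean Γ L δ q p t g)
    ?_ ?_ ?_ ?_ ?_ ?_ ?_ ?_ ?_ ?_ ?_ ?_ ?_ ?_ ?_ ?_ ?_ ?_ ?_ h inferInstance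
  · intros
    trivial
  · intros
    trivial
  · intro E Γ L δ q p _
    exact Mean.one
  · intro E Γ L δ q p g _ ih hE
    exact (ih hE).weak
  · intro E Γ L δ q p t t' g g' _ _ ih ih' hE
    exact (ih hE).mul (ih' hE)
  · intro E Γ L δ q p t g c hc _ ih hE
    exact (ih hE).conj hc
  · intro E Γ L δ q p t g n hg hn _ ih hE
    exact (ih hE).root hg hn
  · intro E Γ L δ q p _
    exact Mean.start
  · intro E Γ L δ q p _
    exact Mean.neg
  · intro E Γ L δ q p _
    exact Mean.slope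
  · intro E Γ L δ q p t d h1 h2 _ ih hE
    exact (ih hE).toM h1 h2
  · intro E Γ L δ q p t d h1 h2 _ ih hE
    exact (ih hE).toD h1 h2
  · intro E Γ L δ q p s t d i j k l S hF _ _ ih hE
    exact (ih hE).fill (spec_of_fill hF)
  · intro E Γ L δ q p t d i j k l S c hF _ _ _ ih1 ih2 hE
    exact (ih1 hE).up (spec_of_fill hF) (ih2 hE)
  · intro E Γ L δ q p t d i j k l S c hF _ _ _ ih1 ih2 hE
    exact (ih1 hE).down (spec_of_fill hF) (ih2 hE)
  · intro E Γ L δ q p t d e g W hW h1 h2 _ hd _ ih iht hE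
    exact Mean.minV hW h1 h2 (fun c hc hc' => ih c hc hc' hE) hd (iht hE)
  · intro E Γ L δ q p t d e g W hW h1 h2 _ hd _ ih iht hE
    exact Mean.maxV hW h1 h2 (fun c hc hc' => ih c hc hc' hE) hd (iht hE)
  · intro E Γ L δ q p t d e g W hW h1 h2 _ hd _ ih iht hE
    exact Mean.minF hW h1 h2 (fun c hc hc' => ih c hc hc' hE) hd (iht hE)
  · intro E Γ L δ q p t d e g W hW h1 h2 _ hd _ ih iht hE
    exact Mean.maxF hW h1 h2 (fun c hc hc' => ih c hc hc' hE) hd (iht hE)

section main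

variable {E : Type} [Finite E] {G : Type u} [Group G] {Γ : CMap E} {L : Lab G Γ} {δ : E}
  {q p q' p' : ℕ} {P : Set E} {F : E → Set G} {F₀ : Set G} {A B C D : ℤ}

/-- The main theorem. -/
theorem main52 (hl : ∀ i : ℕ, (Γ.rot ^ i) δ ≠ Γ.flip δ)
    (hb : ∀ i : ℕ, (Γ.dual.rot ^ i) δ ≠ Γ.flip δ)
    (hP : ∀ d, d ≠ δ → d ≠ Γ.flip δ → d ∈ P ∨ Γ.flip d ∈ P)
    (hpos : ∀ d ∈ P, Fill true (L.M d) (L.D d) (F d))
    (hp : 0 < p) (hp' : 0 < p')
    (h₁ : Pos Γ L δ q p true 1) (h₂ : Pos Γ.dual (dual L) δ q' p' true 1)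
    (hAB : A ≠ 0 ∨ B ≠ 0) (h1 : 0 ≤ A * q + B * p) (h2 : 0 ≤ A * p' + B * q')
    (h3 : 0 < C * q + D * p) (h4 : 0 < C * p' + D * q')
    (hneg : Fill false (L.M δ ^ A * (L.D δ)⁻¹ ^ B) (L.M δ ^ C * (L.D δ)⁻¹ ^ D)⁻¹ F₀)
    (hgen : Subgroup.closure ((L.elts ∪ ⋃ d ∈ P, F d) ∪ F₀) = ⊤) :
    ¬ (Nontrivial G ∧ ∃ _ : LinearOrder G, ∀ f g h : G, g ≤ h → f * g ≤ f * h) := by
  have hF : ∀ d ∈ P, ∀ (Ω : Type u) [CompleteLinearOrder Ω] (ρ : G →* (Ω ≃o Ω)),
      FillSpec true (some 0) none (ρ (L.M d)) (ρ (L.D d)) (ρ '' F d) := fun d hd =>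
    spec_of_fill (hpos d hd)
  have hN := spec_of_fill hneg
  have l₁ := low_calc hl hb hp (mean_of_pos h₁)
  have l₂ := low_calc' hl hb hp' (mean_of_pos h₂)
  have hup : ∀ (Ω : Type u) [CompleteLinearOrder Ω] (ρ : G →* (Ω ≃o Ω)) (z : Ω),
      ¬ z < ρ (L.D δ) z := root_up hP hF l₁ l₂ hAB h1 h2 ⟨h3, h4⟩ hN
  -- no element moves up under `D δ`, for any left order
  have noup : ∀ ho : LinearOrder G, (∀ f g h : G, g ≤ h → f * g ≤ f * h) →
      ∀ g : G, L.D δ * g ≤ g := by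
    intro ho hmul g
    by_contra hn
    push Not at hn
    have h1 : ∀ u v : G, cutHom hmul u (LowerSet.Iic v) = LowerSet.Iic (u * v) := by
      intro u v
      ext w
      change w ∈ cutHom hmul u (LowerSet.Iic v) ↔ w ∈ LowerSet.Iic (u * v)
      rw [mem_cutHom]
      change u⁻¹ * w ≤ v ↔ w ≤ u * v
      constructor
      · intro h
        have := hmul u _ _ h
        rwa [mul_inv_cancel_left] at this
      · intro h
        have := hmul u⁻¹ _ _ h
        rwa [inv_mul_cancel_left] at this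
    refine hup _ (cutHom hmul) (LowerSet.Iic g) ?_
    rw [h1]
    exact lt_of_le_of_ne (fun w (hw : w ≤ g) => (hw.trans hn.le : w ≤ L.D δ * g))
      fun e => hn.not_ge (e.ge (le_refl (L.D δ * g)))
  rintro ⟨hnt, ⟨ho, hmul⟩⟩
  -- the element `D δ` is trivial
  have hD : L.D δ = 1 := by
    have h1 := noup ho hmul 1
    have h2 := noup (OrderDual.instLinearOrder G) (fun f g h hgh => hmul f h g hgh) 1
    rw [mul_one] at h1 h2
    exact le_antisymm h1 h2
  have hall : ∀ z : LowerSet G, ∀ g : G, cutHom hmul g z = z := by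
    intro z g
    set ρ := cutHom hmul with hρ
    have H : HarmAt Γ L δ _ ρ := harm_of_fill L ρ hP fun d hd => hF d hd _ ρ
    have ha : ρ (L.D δ) z = z := by rw [hD, map_one]; rfl
    obtain ⟨hb, hfix⟩ := all_fix l₁ H (fun d hd => hF d hd _ ρ) ha
    have hw : ∀ X Y : ℤ, ρ (L.M δ ^ X * (L.D δ)⁻¹ ^ Y) z = z := by
      intro X Y
      have h4 : (ρ (L.D δ)⁻¹ ^ Y) z = z := zpow_fix Y (by
        rw [map_inv]
        exact inv_fix ha)
      have h5 : (ρ (L.M δ) ^ X) z = z := zpow_fix X hb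
      rw [map_mul, RelIso.mul_apply, map_zpow, map_zpow, h4, h5]
    have hg : g ∈ Subgroup.closure ((L.elts ∪ ⋃ d ∈ P, F d) ∪ F₀) := by
      rw [hgen]
      trivial
    induction hg using Subgroup.closure_induction with
    | mem y hy =>
      rcases hy with hy | hy
      · exact hfix y hy
      · refine (hN _ ρ).fix z (hw A B) ?_ _ ⟨y, hy, rfl⟩
        rw [map_inv]
        exact inv_fix (hw C D)
    | one => rw [map_one]; rfl
    | mul a b _ _ ha hb => rw [map_mul, RelIso.mul_apply, hb, ha]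
    | inv a _ ha => rw [map_inv]; exact inv_fix ha
  obtain ⟨x, y, hxy⟩ := exists_pair_ne G
  have key : ∀ x y : G, y ≤ x := by
    intro x y
    have h1 := hall (LowerSet.Iic x) (y * x⁻¹)
    have h2 : y ∈ LowerSet.Iic x := by
      rw [← h1, mem_cutHom]
      simp
    exact h2
  exact hxy (le_antisymm (key y x) (key x y))

end main

end Pool.Agent.Helper52.OT
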