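import Pool.Agent.Helper52.OT.Root

/-!
Closed manifolds glued along trees from double branched covers of the complements of crossing
balls of alternating diagrams: if both bounds for the interval of slopes hold, the fundamental
group is not left-orderable.
-/

set_option autoImplicit false

namespace Pool.Agent.Helper52.OT

open Pool.Agent.Helper42.Th Pool.Agent.Helper31.T3 Pool.Agent.Helper42.T3 Pool.Agent.Helper42.T4
open Pool.Agent.Helper31.OrderAct
open Pool.Agent.Helper71.Rot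
open Pool.Agent.Helper71.Tree (FillSpec solid_spec)
open Pool.Agent.Helper24.T8 (dual HarmAt opHom comm_ab comm_pow)

universe u

section main

variable {E : Type} [Finite E] {G : Type u} [Group G] {Γ : CMap E} {L : Lab G Γ} {δ : E}
  {q p q' p' : ℕ} {P : Set E} {F : E → Set G} {F₀ : Set G} {A B C D : ℤ}

/-- The main theorem from the bounds for the slopes. -/
theorem main_spec (hP : ∀ d, d ≠ δ → d ≠ Γ.flip δ → d ∈ P ∨ Γ.flip d ∈ P)
    (hF : ∀ d ∈ P, ∀ (Ω : Type u) [CompleteLinearOrder Ω] (ρ : G →* (Ω ≃o Ω)),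
      FillSpec true (some 0) none (ρ (L.M d)) (ρ (L.D d)) (ρ '' F d))
    (l₁ : LowSpec Γ L δ q p) (l₂ : LowSpec Γ.dual (dual L) δ q' p')
    (hAB : A ≠ 0 ∨ B ≠ 0) (h1 : 0 ≤ A * q + B * p) (h2 : 0 ≤ A * p' + B * q')
    (h3 : 0 < C * q + D * p) (h4 : 0 < C * p' + D * q')
    (hN : ∀ (Ω : Type u) [CompleteLinearOrder Ω] (ρ : G →* (Ω ≃o Ω)),
      FillSpec false (some 0) none (ρ (L.M δ ^ A * (L.D δ)⁻¹ ^ B))
        (ρ (L.M δ ^ C * (L.D δ)⁻¹ ^ D)⁻¹) (ρ '' F₀))
    (hgen : Subgroup.closure ((L.elts ∪ ⋃ d ∈ P, F d) ∪ F₀) = ⊤) :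
    ¬ (Nontrivial G ∧ ∃ _ : LinearOrder G, ∀ f g h : G, g ≤ h → f * g ≤ f * h) := by
  have hup : ∀ (Ω : Type u) [CompleteLinearOrder Ω] (ρ : G →* (Ω ≃o Ω)) (z : Ω),
      ¬ z < ρ (L.D δ) z := root_up hP hF l₁ l₂ hAB h1 h2 ⟨h3, h4⟩ hN
  -- no element moves up under `D δ`, for any left order
  have noup : ∀ ho : LinearOrder G, (∀ f g h : G, g ≤ h → f * g ≤ f * h) →
      ∀ g : G, L.D δ * g ≤ g := by
    intro ho hmul g
    by_contra hn
    push Not at hn
    have h1 : ∀ u v : G, cutHom hmul u (LowerSet.Iic v) = LowerSet.Iic (u * v) := by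
      intro u v
      ext w
      change w ∈ cutHom hmul u (LowerSet.Iic v) ↔ w ∈ LowerSet.Iic (u * v)
      rw [mem_cutHom]
      change u⁻¹ * w ≤ v ↔ w ≤ u * v
      constructor
      · intro h
        have := hmul u _ _ h
        rwa [mul_inv_cancel_left] at this
      · intro h
        have := hmul u⁻¹ _ _ h
        rwa [inv_mul_cancel_left] at this
    refine hup _ (cutHom hmul) (LowerSet.Iic g) ?_
    rw [h1]
    exact lt_of_le_of_ne (fun w (hw : w ≤ g) => (hw.trans hn.le : w ≤ L.D δ * g))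
      fun e => hn.not_ge (e.ge (le_refl (L.D δ * g)))
  rintro ⟨hnt, ⟨ho, hmul⟩⟩
  -- the element `D δ` is trivial
  have hD : L.D δ = 1 := by
    have h1 := noup ho hmul 1
    have h2 := noup (OrderDual.instLinearOrder G) (fun f g h hgh => hmul f h g hgh) 1
    rw [mul_one] at h1 h2
    exact le_antisymm h1 h2
  have hall : ∀ z : LowerSet G, ∀ g : G, cutHom hmul g z = z := by
    intro z g
    set ρ := cutHom hmul with hρ
    have H : HarmAt Γ L δ _ ρ := harm_of_fill L ρ hP fun d hd => hF d hd _ ρ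
    have ha : ρ (L.D δ) z = z := by rw [hD, map_one]; rfl
    obtain ⟨hb, hfix⟩ := all_fix l₁ H (fun d hd => hF d hd _ ρ) ha
    have hw : ∀ X Y : ℤ, ρ (L.M δ ^ X * (L.D δ)⁻¹ ^ Y) z = z := by
      intro X Y
      have h4 : (ρ (L.D δ)⁻¹ ^ Y) z = z := zpow_fix Y (by
        rw [map_inv]
        exact inv_fix ha)
      have h5 : (ρ (L.M δ) ^ X) z = z := zpow_fix X hb
      rw [map_mul, RelIso.mul_apply, map_zpow, map_zpow, h4, h5]
    have hg : g ∈ Subgroup.closure ((L.elts ∪ ⋃ d ∈ P, F d) ∪ F₀) := by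
      rw [hgen]
      trivial
    induction hg using Subgroup.closure_induction with
    | mem y hy =>
      rcases hy with hy | hy
      · exact hfix y hy
      · refine (hN _ ρ).fix z (hw A B) ?_ _ ⟨y, hy, rfl⟩
        rw [map_inv]
        exact inv_fix (hw C D)
    | one => rw [map_one]; rfl
    | mul a b _ _ ha hb => rw [map_mul, RelIso.mul_apply, hb, ha]
    | inv a _ ha => rw [map_inv]; exact inv_fix ha
  obtain ⟨x, y, hxy⟩ := exists_pair_ne G
  have key : ∀ x y : G, y ≤ x := by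
    intro x y
    have h1 := hall (LowerSet.Iic x) (y * x⁻¹)
    have h2 : y ∈ LowerSet.Iic x := by
      rw [← h1, mem_cutHom]
      simp
    exact h2
  exact hxy (le_antisymm (key y x) (key x y))

end main

end Pool.Agent.Helper52.OT
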