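import Pool.Agent.Helper52.OT.Words

/-!
The element of the negative edge does not move up (a variant of Helper24/T8/Main.lean for
intervals of slopes anywhere between `0` and infinity).
-/

set_option autoImplicit false

namespace Pool.Agent.Helper52.OT

open Pool.Agent.Helper42.Th Pool.Agent.Helper31.T3 Pool.Agent.Helper42.T3 Pool.Agent.Helper42.T4
open Pool.Agent.Helper31.OrderAct
open Pool.Agent.Helper71.Rot
open Pool.Agent.Helper71.Tree (FillSpec)
open Pool.Agent.Helper24.T8 (dual HarmAt opHom comm_ab comm_pow all_of_one)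

universe u

section

variable {E : Type} {G : Type u} [Group G] {Γ : CMap E} {L : Lab G Γ} {δ : E} {q p q' p' : ℕ}
  {P : Set E} {F : E → Set G} {F₀ : Set G} {A B C D : ℤ}

lemma pow_le_of {Ω : Type*} [LinearOrder Ω] {u v : Ω ≃o Ω} (hc : ∀ z, u (v z) = v (u z)) {z : Ω}
    (h : u z ≤ v z) (n : ℕ) : (u ^ n) z ≤ (v ^ n) z := by
  induction n with
  | zero => exact le_rfl
  | succ n ih =>
    rw [pow_succ u, pow_succ' v, RelIso.mul_apply, RelIso.mul_apply]
    refine ((u ^ n).monotone h).trans ?_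
    have := comm_pow hc n 1 z
    rw [pow_one] at this
    rw [this]
    exact v.monotone ih

/-- Weakly positive words are positive, or they are on one of the two ends. -/
lemma cases_word (hp : 0 < p) (hp' : 0 < p') (hqq : q * q' ≤ p * p')
    (hAB : A ≠ 0 ∨ B ≠ 0) (h1 : 0 ≤ A * q + B * p) (h2 : 0 ≤ A * p' + B * q') :
    Cone q p q' p' A B ∨ (0 < A ∧ A * q + B * p = 0) ∨
      (A ≤ 0 ∧ 0 < B ∧ A * p' + B * q' = 0) := by
  have hpz : (0 : ℤ) < p := by exact_mod_cast hp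
  have hpz' : (0 : ℤ) < p' := by exact_mod_cast hp'
  have hqz : (q : ℤ) * q' ≤ p * p' := by exact_mod_cast hqq
  have hq0 : (0 : ℤ) ≤ q := Int.natCast_nonneg _
  have hq0' : (0 : ℤ) ≤ q' := Int.natCast_nonneg _
  rcases lt_or_ge 0 A with hA | hA
  · rcases h1.eq_or_lt with h3 | h3
    · exact Or.inr (Or.inl ⟨hA, h3.symm⟩)
    · refine Or.inl ⟨h3, ?_⟩
      rcases hq0'.eq_or_lt with h4 | h4
      · rw [← h4, mul_zero, add_zero]
        exact mul_pos hA hpz'
      · by_contra hn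
        push Not at hn
        have h5 : 0 < (A * q + B * p) * q' := mul_pos h3 h4
        have h6 : (A * p' + B * q') * p ≤ 0 := mul_nonpos_of_nonpos_of_nonneg hn hpz.le
        have h7 : A * (q * q') ≤ A * (p * p') := mul_le_mul_of_nonneg_left hqz hA.le
        nlinarith
  · have hB : 0 < B := by
      by_contra hn
      push Not at hn
      rcases hn.eq_or_lt with h3 | h3
      · rw [h3, zero_mul, add_zero] at h2
        have h4 : 0 ≤ A := nonneg_of_mul_nonneg_left h2 hpz'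
        rcases hAB with h | h
        · exact h (le_antisymm hA h4)
        · exact h h3
      · have h5 : B * p < 0 := mul_neg_of_neg_of_pos h3 hpz
        have h6 : A * q ≤ 0 := mul_nonpos_of_nonpos_of_nonneg hA hq0
        omega
    rcases h2.eq_or_lt with h3 | h3
    · exact Or.inr (Or.inr ⟨hA, hB, h3.symm⟩)
    · refine Or.inl ⟨?_, h3⟩
      rcases hA.eq_or_lt with h4 | h4
      · rw [h4, zero_mul, zero_add]
        exact mul_pos hB hpz
      · have hq1 : (0 : ℤ) < q' := by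
          rcases hq0'.eq_or_lt with h5 | h5
          · exfalso
            rw [← h5, mul_zero, add_zero] at h3
            exact absurd h3 (not_lt.mpr (mul_neg_of_neg_of_pos h4 hpz').le)
          · exact h5
        by_contra hn
        push Not at hn
        have h5 : (A * q + B * p) * q' ≤ 0 := mul_nonpos_of_nonpos_of_nonneg hn hq0'
        have h6 : 0 < (A * p' + B * q') * p := mul_pos h3 hpz
        have h7 : -A * (q * q') ≤ -A * (p * p') := mul_le_mul_of_nonneg_left hqz (by omega)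
        nlinarith

variable [Finite E]

lemma M_fix (h₁ : LowSpec Γ L δ q p) {Ω : Type u} [CompleteLinearOrder Ω]
    {ρ : G →* (Ω ≃o Ω)} (H : HarmAt Γ L δ Ω ρ) {z : Ω} (hD : ρ (L.D δ) z = z) :
    ρ (L.M δ) z = z :=
  (all_fix (P := ∅) (F := fun _ => ∅) h₁ H (fun d hd => absurd hd (Set.notMem_empty d)) hD).1

lemma D_up (h₁ : LowSpec Γ L δ q p) {Ω : Type u} [CompleteLinearOrder Ω]
    {ρ : G →* (Ω ≃o Ω)} (H : HarmAt Γ L δ Ω ρ) (H' : HarmAt Γ L δ Ωᵒᵈ ((opHom Ω).comp ρ))
    {t : Ω} (ht : ρ (L.M δ) t < t) : t < ρ (L.D δ) t := by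
  rcases lt_trichotomy t (ρ (L.D δ) t) with h | h | h
  · exact h
  · exact absurd (M_fix h₁ H h.symm) ht.ne
  · have h1 := wd_nonneg (Ω := Ωᵒᵈ) (ρ := (opHom Ω).comp ρ) h₁ (A := 1) (B := 0) (by norm_num)
      le_rfl (by norm_num) H' (z := OrderDual.toDual t) h
    rw [wd, zpow_one, zpow_zero, mul_one] at h1
    exact absurd (show t < ρ (L.M δ) t from h1) (not_lt.mpr ht.le)

/-- The element of the negative edge does not move up. -/
theorem root_up (hP : ∀ d, d ≠ δ → d ≠ Γ.flip δ → d ∈ P ∨ Γ.flip d ∈ P)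
    (hF : ∀ d ∈ P, ∀ (Ω : Type u) [CompleteLinearOrder Ω] (ρ : G →* (Ω ≃o Ω)),
      FillSpec true (some 0) none (ρ (L.M d)) (ρ (L.D d)) (ρ '' F d))
    (h₁ : LowSpec Γ L δ q p) (h₂ : LowSpec Γ.dual (dual L) δ q' p')
    (hAB : A ≠ 0 ∨ B ≠ 0) (h1 : 0 ≤ A * q + B * p) (h2 : 0 ≤ A * p' + B * q')
    (hK : Cone q p q' p' C D)
    (hneg : ∀ (Ω : Type u) [CompleteLinearOrder Ω] (ρ : G →* (Ω ≃o Ω)),
      FillSpec false (some 0) none (ρ (wd L δ A B)) (ρ (wd L δ C D)⁻¹) (ρ '' F₀))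
    (Ω : Type u) [CompleteLinearOrder Ω] (ρ : G →* (Ω ≃o Ω)) (z : Ω) :
    ¬ z < ρ (L.D δ) z := by
  intro hz
  have H : HarmAt Γ L δ Ω ρ := harm_of_fill L ρ hP fun d hd => hF d hd Ω ρ
  have H' : HarmAt Γ L δ Ωᵒᵈ ((opHom Ω).comp ρ) :=
    harm_of_fill L _ hP fun d hd => hF d hd Ωᵒᵈ _
  -- the word `(A, B)` does not move down where `D` moves up
  have key : ∀ y, y < ρ (L.D δ) y → y ≤ ρ (wd L δ A B) y := by
    intro y hy
    have h3 := wd_dn h₁ h₂ hK H H' hy
    have h4 : y ≤ ρ (wd L δ C D)⁻¹ y := by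
      rw [← (ρ (wd L δ C D)).le_iff_le, ← RelIso.mul_apply, ← map_mul, mul_inv_cancel, map_one]
      exact h3.le
    have hc : ρ (wd L δ A B) * ρ (wd L δ C D)⁻¹ = ρ (wd L δ C D)⁻¹ * ρ (wd L δ A B) := by
      rw [← map_mul, ← map_mul, wd_inv, wd_mul, wd_mul, add_comm A, add_comm B]
    have h5 := ((hneg Ω ρ).bd hc).lower 0 rfl
    rw [neg_zero, zpow_zero, one_mul] at h5
    exact (h5.up y h4).1
  have hqq : q * q' ≤ p * p' := by
    by_contra hn
    push Not at hn
    have h5 := h₁.strict H hz (q₁ := q + p') (p₁ := p + q') (by nlinarith)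
    have hM : ρ (L.M δ) z < z := by
      have := wd_nonneg h₁ (A := 1) (B := 0) (by norm_num) le_rfl (by norm_num) H hz
      rwa [wd, zpow_one, zpow_zero, mul_one] at this
    have h6 := h₂.strict (Ω := Ωᵒᵈ) (ρ := (opHom Ω).comp ρ) (fun z => (H' z).dual)
      (z := OrderDual.toDual z) (q₁ := p + q') (p₁ := q + p') (by
        change OrderDual.toDual z < OrderDual.toDual (ρ (L.M δ) z)
        exact hM) (by nlinarith)
    rw [← map_pow, ← map_pow] at h6
    have h7 : ρ ((L.D δ)⁻¹ ^ (q + p')) z < ρ (L.M δ ^ (p + q')) z := h6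
    rw [← map_pow, ← map_pow] at h5
    rw [← (ρ (L.D δ ^ (q + p'))).lt_iff_lt, ← RelIso.mul_apply, ← RelIso.mul_apply, ← map_mul,
      ← map_mul, inv_pow, mul_inv_cancel, map_one] at h7
    rw [← (ρ (L.M δ ^ (p + q'))).lt_iff_lt, ← RelIso.mul_apply, ← RelIso.mul_apply, ← map_mul,
      ← map_mul, inv_pow, mul_inv_cancel, map_one] at h5
    have hc : Commute (L.M δ) (L.D δ) := comm_MD L δ
    rw [(hc.pow_pow _ _).eq] at h5
    exact lt_asymm h5 h7
  rcases cases_word h₁.pos h₂.pos hqq hAB h1 h2 with h | ⟨hA, h⟩ | ⟨hA, hB, h⟩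
  · exact absurd (wd_dn h₁ h₂ h H H' hz) (not_lt.mpr (key z hz))
  · -- the lower end
    obtain ⟨y, hy, h3⟩ := h₁.low Ω ρ H z hz
    have hy' := reg_lt hz hy
    have h4 := key y hy'
    have hB : B ≤ 0 := by
      by_contra hn
      push Not at hn
      have h5 : 0 < B * p := mul_pos hn (by exact_mod_cast h₁.pos)
      have h6 : 0 ≤ A * q := mul_nonneg hA.le (Int.natCast_nonneg _)
      omega
    obtain ⟨B', rfl⟩ : ∃ B' : ℕ, B = -(B' : ℤ) := ⟨B.natAbs, by omega⟩
    lift A to ℕ using hA.le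
    have h5 : A * q = B' * p := by
      have : ((A * q : ℕ) : ℤ) = (B' * p : ℕ) := by
        push_cast
        linarith
      exact_mod_cast this
    -- `b ^ A ≤ a ^ B'`
    have h6 : (ρ (L.M δ)⁻¹ ^ A) y ≤ (ρ (L.D δ) ^ B') y := by
      rw [wd, zpow_neg, zpow_natCast, zpow_natCast, inv_pow, inv_inv, map_mul,
        RelIso.mul_apply] at h4
      rw [← map_pow, ← map_pow, inv_pow, ← (ρ (L.M δ ^ A)).le_iff_le, ← RelIso.mul_apply,
        ← map_mul, mul_inv_cancel, map_one]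
      exact h4
    have hcab := fun (m n : ℕ) (z : Ω) => comm_pow (comm_ab L δ ρ) m n z
    have h7 := pow_le_of (fun z => (hcab B' A z).symm) h6 p
    rw [← pow_mul, ← pow_mul, ← h5, Nat.mul_comm A p, Nat.mul_comm A q, pow_mul, pow_mul] at h7
    exact absurd h7 (not_le.mpr (pow_lt_of (hcab q p) h3 (by exact_mod_cast hA)))
  · -- the upper end
    have hM : ρ (L.M δ) z < z := by
      have := wd_nonneg h₁ (A := 1) (B := 0) (by norm_num) le_rfl (by norm_num) H hz
      rwa [wd, zpow_one, zpow_zero, mul_one] at this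
    have hM' : (OrderDual.toDual z) < ((opHom Ω).comp ρ) ((dual L).D δ) (OrderDual.toDual z) :=
      hM
    obtain ⟨y, hy, h3⟩ := h₂.low Ωᵒᵈ ((opHom Ω).comp ρ) (fun z => (H' z).dual) _ hM'
    have hy1 := reg_lt hM' hy
    set t : Ω := OrderDual.ofDual y with ht
    have hy2 : ρ (L.M δ) t < t := hy1
    have hy3 : t < ρ (L.D δ) t := D_up h₁ H H' hy2
    rw [← map_pow, ← map_pow] at h3
    have h4 : ρ ((L.D δ)⁻¹ ^ p') t < ρ (L.M δ ^ q') t := h3
    have h5 := key t hy3
    obtain ⟨A', rfl⟩ : ∃ A' : ℕ, A = -(A' : ℤ) := ⟨A.natAbs, by omega⟩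
    lift B to ℕ using hB.le
    have h6 : A' * p' = B * q' := by
      have : ((A' * p' : ℕ) : ℤ) = (B * q' : ℕ) := by
        push_cast
        linarith
      exact_mod_cast this
    -- `M ^ A' ≤ D ^ (-B)`
    have h7 : (ρ (L.M δ) ^ A') t ≤ (ρ (L.D δ)⁻¹ ^ B) t := by
      rw [wd, zpow_neg, zpow_natCast, zpow_natCast, map_mul, RelIso.mul_apply,
        ← (ρ (L.M δ ^ A')).le_iff_le, ← RelIso.mul_apply, ← map_mul, mul_inv_cancel, map_one] at h5
      rw [← map_pow, ← map_pow]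
      exact h5
    have hcm : ∀ z, ρ (L.M δ) (ρ (L.D δ)⁻¹ z) = ρ (L.D δ)⁻¹ (ρ (L.M δ) z) := by
      intro z
      rw [← RelIso.mul_apply, ← RelIso.mul_apply, ← map_mul, ← map_mul, (comm_MD' L δ).eq]
    have hcab := fun (m n : ℕ) (z : Ω) => comm_pow hcm m n z
    have h8 := pow_le_of (hcab A' B) h7 p'
    rw [← pow_mul, ← pow_mul, h6, Nat.mul_comm B q', Nat.mul_comm B p', pow_mul, pow_mul] at h8
    rw [map_pow, map_pow] at h4
    exact absurd h8 (not_le.mpr (pow_lt_of (fun z => (hcab q' p' z).symm) h4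
      (by exact_mod_cast hB)))


end

end Pool.Agent.Helper52.OT
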