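import Pool.Agent.Helper24.T8.Spec

/-!
The words in the peripheral elements which are positive on the interval of slopes, which may be
anywhere between `0` and infinity (a variant of Helper24/T8/Words.lean).
-/

set_option autoImplicit false

namespace Pool.Agent.Helper52.OT

open Pool.Agent.Helper42.Th Pool.Agent.Helper31.T3 Pool.Agent.Helper42.T3 Pool.Agent.Helper42.T4
open Pool.Agent.Helper31.OrderAct
open Pool.Agent.Helper71.Rot
open Pool.Agent.Helper71.Tree (FillSpec)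
open Pool.Agent.Helper24.T8 (dual HarmAt opHom comm_ab comm_pow all_of_one)

universe u

section spec

variable {E : Type} {G : Type u} [Group G]

/-- The meaning of a lower bound for the slope. -/
structure LowSpec (Γ : CMap E) (L : Lab G Γ) (δ : E) (q p : ℕ) : Prop where
  pos : 0 < p
  loop : ∀ i : ℕ, (Γ.rot ^ i) δ ≠ Γ.flip δ
  bridge : ∀ i : ℕ, (Γ.dual.rot ^ i) δ ≠ Γ.flip δ
  low : ∀ (Ω : Type u) [CompleteLinearOrder Ω] (ρ : G →* (Ω ≃o Ω)), HarmAt Γ L δ Ω ρ →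
    ∀ z, z < ρ (L.D δ) z →
      ∃ y, Reg (ρ (L.D δ)) z y ∧ (ρ (L.D δ) ^ q) y < (ρ (L.M δ)⁻¹ ^ p) y

variable {Γ : CMap E} {L : Lab G Γ} {δ : E} {q p q' p' : ℕ}

/-- The strict bound at every point. -/
lemma LowSpec.strict (h : LowSpec Γ L δ q p) {Ω : Type u} [CompleteLinearOrder Ω]
    {ρ : G →* (Ω ≃o Ω)} (H : HarmAt Γ L δ Ω ρ) {z : Ω} (hz : z < ρ (L.D δ) z) {q₁ p₁ : ℕ}
    (h1 : q₁ * p < q * p₁) : (ρ (L.D δ) ^ q₁) z < (ρ (L.M δ)⁻¹ ^ p₁) z := by
  by_contra hn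
  push Not at hn
  obtain ⟨y, hy, h2⟩ := h.low Ω ρ H z hz
  exact absurd h2 (not_lt.mpr (all_of_one (comm_ab L δ ρ) hz h1 hn hy))

/-- The word `M ^ A * D ^ (-B)`. -/
def wd (L : Lab G Γ) (δ : E) (A B : ℤ) : G := L.M δ ^ A * (L.D δ)⁻¹ ^ B

/-- The word is positive on the interval of slopes. -/
def Cone (q p q' p' : ℕ) (A B : ℤ) : Prop := 0 < A * q + B * p ∧ 0 < A * p' + B * q'

lemma comm_MD' (L : Lab G Γ) (δ : E) : Commute (L.M δ) (L.D δ)⁻¹ :=
  (show Commute (L.M δ) (L.D δ) from comm_MD L δ).inv_right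

lemma wd_mul (L : Lab G Γ) (δ : E) (A B C D : ℤ) :
    wd L δ A B * wd L δ C D = wd L δ (A + C) (B + D) := by
  have h : Commute ((L.D δ)⁻¹ ^ B) (L.M δ ^ C) := (comm_MD' L δ).symm.zpow_zpow B C
  rw [wd, wd, wd, zpow_add, zpow_add]
  calc L.M δ ^ A * (L.D δ)⁻¹ ^ B * (L.M δ ^ C * (L.D δ)⁻¹ ^ D)
      = L.M δ ^ A * ((L.D δ)⁻¹ ^ B * L.M δ ^ C) * (L.D δ)⁻¹ ^ D := by group
    _ = L.M δ ^ A * L.M δ ^ C * ((L.D δ)⁻¹ ^ B * (L.D δ)⁻¹ ^ D) := by rw [h.eq]; group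

lemma wd_pow (L : Lab G Γ) (δ : E) (A B : ℤ) (n : ℕ) :
    wd L δ A B ^ n = wd L δ (A * n) (B * n) := by
  have h : Commute (L.M δ ^ A) ((L.D δ)⁻¹ ^ B) := (comm_MD' L δ).zpow_zpow A B
  rw [wd, wd, h.mul_pow, zpow_mul, zpow_mul, zpow_natCast, zpow_natCast]

lemma wd_inv (L : Lab G Γ) (δ : E) (A B : ℤ) : (wd L δ A B)⁻¹ = wd L δ (-A) (-B) := by
  rw [inv_eq_iff_mul_eq_one, wd_mul, add_neg_cancel, add_neg_cancel, wd, zpow_zero, zpow_zero,
    mul_one]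

lemma op_apply {Ω : Type u} [CompleteLinearOrder Ω] (ρ : G →* (Ω ≃o Ω)) (g : G) (z : Ω) :
    ((opHom Ω).comp ρ) g (OrderDual.toDual z) = OrderDual.toDual (ρ g z) := rfl

variable [Finite E]

/-- A word with nonnegative exponents. -/
lemma wd_nonneg (h₁ : LowSpec Γ L δ q p) {A B : ℤ} (hA : 0 ≤ A) (hB : 0 ≤ B)
    (hAB : 0 < A + B) {Ω : Type u} [CompleteLinearOrder Ω] {ρ : G →* (Ω ≃o Ω)}
    (H : HarmAt Γ L δ Ω ρ) {z : Ω} (hz : z < ρ (L.D δ) z) : ρ (wd L δ A B) z < z := by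
  have hx : lx L ρ (Γ.flip δ) z < lx L ρ δ z := by
    rw [← X_D L ρ δ z]
    exact (lx L ρ (Γ.flip δ)).strictMono hz
  have hM : ρ (L.M δ) z < z := by
    have h2 := (H z).sgn h₁.loop hx.le
    have h3 : ly L ρ (Γ.flip δ) z ≠ ly L ρ δ z := fun e => hx.ne ((H z).strict h₁.bridge e)
    have h4 := (dn_M L ρ).mpr h2
    refine lt_of_le_of_ne h4 fun e => h3 ?_
    exact le_antisymm ((up_M L ρ).mp e.ge) ((dn_M L ρ).mp e.le)
  have hD : ρ (L.D δ)⁻¹ z < z := by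
    rw [← (ρ (L.D δ)).lt_iff_lt, ← RelIso.mul_apply, ← map_mul, mul_inv_cancel, map_one]
    exact hz
  have lt_pow : ∀ (x : Ω ≃o Ω) (n : ℕ), 0 < n → x z < z → (x ^ n) z < z := by
    intro x n hn hz
    obtain ⟨m, rfl⟩ : ∃ m, n = m + 1 := ⟨n - 1, by omega⟩
    rw [pow_succ, RelIso.mul_apply]
    exact ((x ^ m).lt_iff_lt.mpr hz).trans_le (pow_le hz.le m)
  lift A to ℕ using hA
  lift B to ℕ using hB
  rw [wd, map_mul, zpow_natCast, zpow_natCast, map_pow, map_pow, RelIso.mul_apply]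
  rcases Nat.eq_zero_or_pos B with h2 | h2
  · rw [h2, pow_zero]
    exact lt_pow _ A (by omega) hM
  · exact ((ρ (L.M δ) ^ A).lt_iff_lt.mpr (lt_pow _ B h2 hD)).trans_le (pow_le hM.le A)

/-- The words which are positive on the interval move the points down. -/
theorem wd_dn (h₁ : LowSpec Γ L δ q p) (h₂ : LowSpec Γ.dual (dual L) δ q' p') {A B : ℤ}
    (hK : Cone q p q' p' A B) {Ω : Type u} [CompleteLinearOrder Ω] {ρ : G →* (Ω ≃o Ω)}
    (H : HarmAt Γ L δ Ω ρ) (H' : HarmAt Γ L δ Ωᵒᵈ ((opHom Ω).comp ρ)) {z : Ω}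
    (hz : z < ρ (L.D δ) z) : ρ (wd L δ A B) z < z := by
  obtain ⟨hA, hB⟩ := hK
  have hp : (0 : ℤ) < p := by exact_mod_cast h₁.pos
  have hp' : (0 : ℤ) < p' := by exact_mod_cast h₂.pos
  rcases lt_or_ge A 0 with h1 | h1
  · -- the upper end
    have hBpos : 0 < B := by
      by_contra hn
      push Not at hn
      have h3 : A * p' < 0 := mul_neg_of_neg_of_pos h1 hp'
      have h4 : B * q' ≤ 0 := mul_nonpos_of_nonpos_of_nonneg hn (Int.natCast_nonneg _)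
      omega
    obtain ⟨A', rfl⟩ : ∃ A' : ℕ, A = -(A' : ℤ) := ⟨A.natAbs, by omega⟩
    lift B to ℕ using hBpos.le
    have hM : ρ (L.M δ) z < z := by
      have := wd_nonneg h₁ (A := 1) (B := 0) (by norm_num) le_rfl (by norm_num) H hz
      rwa [wd, zpow_one, zpow_zero, mul_one] at this
    have h5 : A' * p' < q' * B := by
      have : ((A' * p' : ℕ) : ℤ) < (q' * B : ℕ) := by
        push_cast
        linarith
      exact_mod_cast this
    have h6 := h₂.strict (Ω := Ωᵒᵈ) (ρ := (opHom Ω).comp ρ) (fun z => (H' z).dual)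
      (z := OrderDual.toDual z) (q₁ := A') (p₁ := B) (by
        change OrderDual.toDual z < OrderDual.toDual (ρ (L.M δ) z)
        exact hM) h5
    rw [← map_pow, ← map_pow] at h6
    have h7 : ρ ((L.D δ)⁻¹ ^ B) z < ρ (L.M δ ^ A') z := h6
    rw [wd, zpow_neg, zpow_natCast, zpow_natCast, map_mul, map_inv, RelIso.mul_apply,
      ← (ρ (L.M δ ^ A')).lt_iff_lt, RelIso.apply_inv_self]
    exact h7
  · rcases lt_or_ge B 0 with h2 | h2
    · -- the lower end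
      obtain ⟨B', rfl⟩ : ∃ B' : ℕ, B = -(B' : ℤ) := ⟨B.natAbs, by omega⟩
      lift A to ℕ using h1
      have h5 : B' * p < q * A := by
        have : ((B' * p : ℕ) : ℤ) < (q * A : ℕ) := by
          push_cast
          linarith
        exact_mod_cast this
      have h6 := h₁.strict H hz h5
      rw [← map_pow, ← map_pow] at h6
      have h7 : wd L δ A (-(B' : ℤ)) = (L.M δ ^ A) * (L.D δ) ^ B' := by
        rw [wd, zpow_neg, zpow_natCast, zpow_natCast, inv_pow, inv_inv]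
      rw [h7, map_mul, RelIso.mul_apply]
      rw [inv_pow, map_inv] at h6
      rw [← (ρ (L.M δ ^ A))⁻¹.lt_iff_lt, RelIso.inv_apply_self]
      exact h6
    · refine wd_nonneg h₁ h1 h2 ?_ H hz
      rcases h1.eq_or_lt with h3 | h3
      · rw [← h3, zero_mul, zero_add] at hA
        have := (pos_iff_pos_of_mul_pos hA).mpr hp
        omega
      · omega


/-- The sign of a word. -/
theorem wd_sgn (h₁ : LowSpec Γ L δ q p) (h₂ : LowSpec Γ.dual (dual L) δ q' p') {A B : ℤ}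
    (hK : Cone q p q' p' A B) {Ω : Type u} [CompleteLinearOrder Ω] {ρ : G →* (Ω ≃o Ω)}
    (H : HarmAt Γ L δ Ω ρ) (H' : HarmAt Γ L δ Ωᵒᵈ ((opHom Ω).comp ρ)) (z : Ω) :
    (z ≤ ρ (wd L δ A B) z ↔ ρ (L.D δ) z ≤ z) ∧ (ρ (wd L δ A B) z ≤ z ↔ z ≤ ρ (L.D δ) z) := by
  have dn : z < ρ (L.D δ) z → ρ (wd L δ A B) z < z := fun h => wd_dn h₁ h₂ hK H H' h
  have up : ρ (L.D δ) z < z → z < ρ (wd L δ A B) z := fun h =>
    wd_dn (Ω := Ωᵒᵈ) (ρ := (opHom Ω).comp ρ) h₁ h₂ hK H' (fun z => H z)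
      (z := OrderDual.toDual z) h
  have eq : ρ (L.D δ) z = z → ρ (wd L δ A B) z = z := by
    intro h
    have e1 : lx L ρ (Γ.flip δ) z = lx L ρ δ z :=
      le_antisymm ((up_D L ρ).mp h.ge) ((dn_D L ρ).mp h.le)
    have h3 : ρ (L.M δ) z = z :=
      le_antisymm ((dn_M L ρ).mpr ((H z).sgn h₁.loop e1.le))
        ((up_M L ρ).mpr ((H z).op.sgn h₁.loop e1.ge))
    have h4 : (ρ (L.D δ)⁻¹ ^ B) z = z := zpow_fix B (by
      rw [map_inv]
      exact inv_fix h)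
    have h5 : (ρ (L.M δ) ^ A) z = z := zpow_fix A h3
    rw [wd, map_mul, RelIso.mul_apply, map_zpow, map_zpow, h4, h5]
  constructor
  · constructor
    · intro h
      by_contra hn
      exact absurd (dn (not_le.mp hn)) (not_lt.mpr h)
    · intro h
      rcases h.eq_or_lt with h | h
      · exact (eq h).ge
      · exact (up h).le
  · constructor
    · intro h
      by_contra hn
      exact absurd (up (not_le.mp hn)) (not_lt.mpr h)
    · intro h
      rcases h.eq_or_lt with h | h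
      · exact (eq h.symm).le
      · exact (dn h).le

end spec


section zero

variable {E : Type} {G : Type u} [Group G] {Γ : CMap E} {L : Lab G Γ} {δ : E} [Finite E]

/-- The bound `0`. -/
theorem low_zero (hl : ∀ i : ℕ, (Γ.rot ^ i) δ ≠ Γ.flip δ)
    (hb : ∀ i : ℕ, (Γ.dual.rot ^ i) δ ≠ Γ.flip δ) : LowSpec Γ L δ 0 1 := by
  refine ⟨one_pos, hl, hb, fun Ω _ ρ H z hz => ⟨z, reg_self _ z, ?_⟩⟩
  have h4 : lx L ρ (Γ.flip δ) z < lx L ρ δ z := by
    rw [← X_D L ρ δ z]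
    exact (lx L ρ (Γ.flip δ)).strictMono hz
  have h5 := (H z).sgn hl h4.le
  have h6 : ly L ρ (Γ.flip δ) z ≠ ly L ρ δ z := fun e => h4.ne ((H z).strict hb e)
  have h7 : ρ (L.M δ) z < z := by
    refine lt_of_le_of_ne ((dn_M L ρ).mpr h5) fun e => h6 ?_
    exact le_antisymm ((up_M L ρ).mp e.ge) ((dn_M L ρ).mp e.le)
  rw [pow_zero, pow_one]
  change z < ρ (L.M δ)⁻¹ z
  rw [← (ρ (L.M δ)).lt_iff_lt, ← RelIso.mul_apply, ← map_mul, mul_inv_cancel, map_one]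
  exact h7


end zero

section glue

variable {E : Type} {G : Type u} [Group G] {Γ : CMap E} {L : Lab G Γ} {δ : E} {q p q' p' : ℕ}
  {P : Set E} {F : E → Set G} [Finite E]

/-- If the peripheral elements fix a point, all elements fix it. -/
lemma all_fix (h₁ : LowSpec Γ L δ q p) {Ω : Type u} [CompleteLinearOrder Ω]
    {ρ : G →* (Ω ≃o Ω)} (H : HarmAt Γ L δ Ω ρ)
    (hF : ∀ d ∈ P, FillSpec true (some 0) none (ρ (L.M d)) (ρ (L.D d)) (ρ '' F d)) {z : Ω}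
    (hD : ρ (L.D δ) z = z) : ρ (L.M δ) z = z ∧ ∀ g ∈ L.elts ∪ ⋃ d ∈ P, F d, ρ g z = z := by
  have e1 : lx L ρ (Γ.flip δ) z = lx L ρ δ z :=
    le_antisymm ((up_D L ρ).mp hD.ge) ((dn_D L ρ).mp hD.le)
  have hM : ρ (L.M δ) z = z :=
    le_antisymm ((dn_M L ρ).mpr ((H z).sgn h₁.loop e1.le))
      ((up_M L ρ).mpr ((H z).op.sgn h₁.loop e1.ge))
  have e2 : ly L ρ (Γ.flip δ) z = ly L ρ δ z :=
    le_antisymm ((up_M L ρ).mp hM.ge) ((dn_M L ρ).mp hM.le)
  have hX : ∀ d, lx L ρ d z = lx L ρ δ z := by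
    intro d
    obtain ⟨h3, h4, -, -⟩ := (H z).ext e1.le e2.ge d
    exact le_antisymm h4 (e1 ▸ h3)
  have hY : ∀ d, ly L ρ d z = ly L ρ δ z := by
    intro d
    obtain ⟨-, -, h3, h4⟩ := (H z).ext e1.le e2.ge d
    exact le_antisymm (e2 ▸ h4) h3
  have hX1 : ∀ d, ρ (L.x d) z = z := by
    obtain ⟨c, hc⟩ := L.x_one
    intro d
    have h3 : lx L ρ d z = lx L ρ c z := (hX d).trans (hX c).symm
    change ρ (L.x d) z = ρ (L.x c) z at h3
    rw [h3, hc, map_one]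
    rfl
  have hY1 : ∀ d, ρ (L.y d) z = z := by
    obtain ⟨c, hc⟩ := L.y_one
    intro d
    have h3 : ly L ρ d z = ly L ρ c z := (hY d).trans (hY c).symm
    change ρ (L.y d) z = ρ (L.y c) z at h3
    rw [h3, hc, map_one]
    rfl
  have hDd : ∀ d, ρ (L.D d) z = z := by
    intro d
    rw [Lab.D, map_mul, map_inv, RelIso.mul_apply, hX1]
    exact inv_fix (hX1 _)
  have hMd : ∀ d, ρ (L.M d) z = z := by
    intro d
    rw [Lab.M, map_mul, map_inv, RelIso.mul_apply, hY1]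
    exact inv_fix (hY1 _)
  refine ⟨hM, fun y hy => ?_⟩
  rcases hy with (⟨d, rfl⟩ | ⟨d, rfl⟩) | hy
  · exact hX1 d
  · exact hY1 d
  · obtain ⟨d, hd⟩ := Set.mem_iUnion.mp hy
    obtain ⟨hd1, hd2⟩ := Set.mem_iUnion.mp hd
    exact (hF d hd1).fix z (hMd d) (hDd d) _ ⟨y, hd2, rfl⟩

/-- A positive word is positive with respect to another positive word. -/
lemma wd_pos (h₁ : LowSpec Γ L δ q p) (h₂ : LowSpec Γ.dual (dual L) δ q' p') {A B C D : ℤ}
    (hK : Cone q p q' p' A B) (hK' : Cone q p q' p' C D) {Ω : Type u} [CompleteLinearOrder Ω]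
    {ρ : G →* (Ω ≃o Ω)} (H : HarmAt Γ L δ Ω ρ)
    (H' : HarmAt Γ L δ Ωᵒᵈ ((opHom Ω).comp ρ)) :
    Pos (ρ (wd L δ A B)) (ρ (wd L δ C D)) := by
  obtain ⟨n, hn⟩ : ∃ n : ℕ, Cone q p q' p' (C * n - A) (D * n - B) := by
    obtain ⟨k1, k2⟩ := hK
    obtain ⟨k3, k4⟩ := hK'
    refine ⟨(A * q + B * p + (A * p' + B * q')).toNat + 1, ?_⟩
    have e : ((A * q + B * p + (A * p' + B * q')).toNat : ℤ) =
        A * q + B * p + (A * p' + B * q') := Int.toNat_of_nonneg (by omega)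
    constructor
    · push_cast
      rw [e]
      have : (C * (A * q + B * p + (A * p' + B * q') + 1) - A) * q +
          (D * (A * q + B * p + (A * p' + B * q') + 1) - B) * p =
          (C * q + D * p) * (A * q + B * p + (A * p' + B * q') + 1) - (A * q + B * p) := by ring
      rw [this]
      nlinarith
    · push_cast
      rw [e]
      have : (C * (A * q + B * p + (A * p' + B * q') + 1) - A) * p' +
          (D * (A * q + B * p + (A * p' + B * q') + 1) - B) * q' =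
          (C * p' + D * q') * (A * q + B * p + (A * p' + B * q') + 1) - (A * p' + B * q') := by
        ring
      rw [this]
      nlinarith
  have hsplit : wd L δ C D ^ n = wd L δ A B * wd L δ (C * n - A) (D * n - B) := by
    rw [wd_pow, wd_mul]
    congr 1 <;> ring
  have hc : wd L δ A B * wd L δ C D = wd L δ C D * wd L δ A B := by
    rw [wd_mul, wd_mul, add_comm A, add_comm B]
  refine ⟨by rw [← map_mul, hc, map_mul], fun s hs => ?_, fun s hs => ?_⟩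
  · have h3 := (wd_sgn h₁ h₂ hK' H H' s).1.mp hs
    refine ⟨(wd_sgn h₁ h₂ hK H H' s).1.mpr h3, n, ?_⟩
    rw [← map_pow, hsplit, map_mul, RelIso.mul_apply]
    exact (ρ (wd L δ A B)).monotone ((wd_sgn h₁ h₂ hn H H' s).1.mpr h3)
  · have h3 := (wd_sgn h₁ h₂ hK' H H' s).2.mp hs
    refine ⟨(wd_sgn h₁ h₂ hK H H' s).2.mpr h3, n, ?_⟩
    rw [← map_pow, hsplit, map_mul, RelIso.mul_apply]
    exact (ρ (wd L δ A B)).monotone ((wd_sgn h₁ h₂ hn H H' s).2.mpr h3)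

/-- The specification of a glued piece. -/
theorem glue_spec (s : Bool) (hP : ∀ d, d ≠ δ → d ≠ Γ.flip δ → d ∈ P ∨ Γ.flip d ∈ P)
    (hF : ∀ d ∈ P, ∀ (Ω : Type u) [CompleteLinearOrder Ω] (ρ : G →* (Ω ≃o Ω)),
      FillSpec true (some 0) none (ρ (L.M d)) (ρ (L.D d)) (ρ '' F d))
    (h₁ : LowSpec Γ L δ q p) (h₂ : LowSpec Γ.dual (dual L) δ q' p') {A B C D : ℤ}
    (hK : Cone q p q' p' A B) (hK' : Cone q p q' p' C D) (Ω : Type u) [CompleteLinearOrder Ω]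
    (ρ : G →* (Ω ≃o Ω)) : FillSpec s (some 0) none (ρ (wd L δ A B)) (ρ (wd L δ C D))
      (ρ '' (L.elts ∪ ⋃ d ∈ P, F d)) := by
  have H : HarmAt Γ L δ Ω ρ := harm_of_fill L ρ hP fun d hd => hF d hd Ω ρ
  have H' : HarmAt Γ L δ Ωᵒᵈ ((opHom Ω).comp ρ) :=
    harm_of_fill L _ hP fun d hd => hF d hd Ωᵒᵈ _
  have hpos := wd_pos h₁ h₂ hK hK' H H'
  have fixD : ∀ {z}, ρ (wd L δ A B) z = z → ρ (L.D δ) z = z := fun {z} h =>
    le_antisymm ((wd_sgn h₁ h₂ hK H H' z).1.mp h.ge) ((wd_sgn h₁ h₂ hK H H' z).2.mp h.le)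
  refine ⟨fun hc => ⟨hc, ?_, ?_, ?_⟩, ?_, ?_⟩
  · rintro k hk
    obtain rfl : (0 : ℤ) = k := Option.some_injective _ hk
    rw [neg_zero, zpow_zero, one_mul]
    exact hpos
  · intro k hk
    exact absurd hk (by simp)
  · refine ⟨0, Or.inl ?_⟩
    rw [neg_zero, zpow_zero, one_mul]
    exact hpos
  · rintro z h3 _ _ ⟨g, hg, rfl⟩
    exact (all_fix h₁ H (fun d hd => hF d hd Ω ρ) (fixD h3)).2 g hg
  · intro _ _ k hk z h3
    obtain rfl : (0 : ℤ) = k := Option.some_injective _ hk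
    rw [neg_zero, zpow_zero, one_mul] at h3
    have h4 := fixD h3
    exact le_antisymm ((wd_sgn h₁ h₂ hK' H H' z).2.mpr h4.ge)
      ((wd_sgn h₁ h₂ hK' H H' z).1.mpr h4.le)

end glue


end Pool.Agent.Helper52.OT
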